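import Pool.Agent.Q20.RL.Lfd

/-!
# Quadratic twists, dihedral relations, and Stark's conjecture: definitions and statements
-/

set_option autoImplicit false
set_option linter.unusedSectionVars false

namespace Pool.Agent.Q20.RS.RL

open NumberField IsDedekindDomain

section defs
variable {K : Type} [Field K]

/-- restriction of a linear character of `Gal(K̄/F)` to `Gal(K̄/F')`, `F ⊆ F'` -/
noncomputable def Lin.res {F F' : Sub K} (h : F ≤ F') (ψ : Lin F) : Lin F' :=
  MonoidHom.comp (M := GalF F') (N := GalF F) ψ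
    (Subgroup.inclusion (IntermediateField.fixingSubgroup_antitone h))

/-- the product of two linear characters -/
noncomputable def Lin.mul {F : Sub K} (ψ η : Lin F) : Lin F :=
  (HMul.hMul (α := GalF F →* ℂˣ) (β := GalF F →* ℂˣ) ψ η : GalF F →* ℂˣ)

/-- `ψ` is trivial on `Gal(K̄/E)` for a finite extension `E` of `K` -/
def Lin.smooth {F : Sub K} (ψ : Lin F) : Prop := Smt (F := F) ψ

/-- `ψ` is unramified at all finite places -/
def Lin.unram {F : Sub K} (ψ : Lin F) : Prop :=
  ∀ p : ℕ, p.Prime → ∀ w : AlgebraicClosure K → ℝ, Plc p w → ∀ g : GalF F,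
    Inr w (g : Gal(AlgebraicClosure K/K)) → ψ.fn g = 1

/-- `η` is a trivial or quadratic character which is trivial on the decomposition groups of all
finite places at which `ψ` is ramified -/
structure Twister {F : Sub K} (ψ η : Lin F) : Prop where
  smooth : η.smooth
  sq : ∀ g, η.fn g * η.fn g = 1
  split : ∀ p : ℕ, p.Prime → ∀ w : AlgebraicClosure K → ℝ, Plc p w →
    (∃ g : GalF F, Inr w (g : Gal(AlgebraicClosure K/K)) ∧ ψ.fn g ≠ 1) →
    ∀ g : GalF F, Dcm w (g : Gal(AlgebraicClosure K/K)) → η.fn g = 1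

/-- `ψ(c) = s` for all complex conjugations -/
def Lin.parity {F : Sub K} (ψ : Lin F) (s : ℂ) : Prop :=
  ∀ c : GalF F, CCj (c : Gal(AlgebraicClosure K/K)) → ψ.fn c = s

/-- `F` is totally real -/
def TotReal (F : Sub K) : Prop := ∀ (φ : F →+* ℂ) (x : F), (starRingEnd ℂ) (φ x) = φ x

/-- `χ` is the character of a representation in which the images of the complex conjugations commute
with each other -/
def CharCC {F : Sub K} (χ : Fn F) : Prop :=
  ∃ (n : ℕ) (τ : GalF F →* GL (Fin n) ℂ), Smt τ ∧
    (∀ g, χ g = (τ g : Matrix (Fin n) (Fin n) ℂ).trace) ∧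
    ∀ c c' : GalF F, CCj (c : Gal(AlgebraicClosure K/K)) → CCj (c' : Gal(AlgebraicClosure K/K)) →
      τ c * τ c' = τ c' * τ c

end defs

/-- **The dihedral relation** of `ψ` and `η`: fields `F ⊆ F₁, F₂ ⊆ F₃` such that `η` is trivial on
`Gal(K̄/F₃)`, the restrictions of `ψ` to `F₁`, `F₂`, `F₃` are unramified at all finite places, and
`ψ + Ind ψ|F₃ = ψη + Ind ψ|F₁ + Ind ψ|F₂` -/
structure Dihedral {K : Type} [Field K] {F : Sub K} (ψ η : Lin F) : Type where
  /-- the first field -/
  F₁ : Sub K
  /-- the second field -/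
  F₂ : Sub K
  /-- the field containing both -/
  F₃ : Sub K
  le₁ : F ≤ F₁
  le₂ : F ≤ F₂
  le₃ : F ≤ F₃
  le₁₃ : F₁ ≤ F₃
  le₂₃ : F₂ ≤ F₃
  fin₁ : FinExt F₁
  fin₂ : FinExt F₂
  fin₃ : FinExt F₃
  trivial : ∀ g : GalF F, (g : Gal(AlgebraicClosure K/K)) ∈ F₃.fixingSubgroup → η.fn g = 1
  unram₁ : (ψ.res le₁).unram
  unram₂ : (ψ.res le₂).unram
  unram₃ : (ψ.res le₃).unram
  relation : plus ψ.fn (ind F F₃ (ψ.res le₃).fn) =
    plus (ψ.mul η).fn (plus (ind F F₁ (ψ.res le₁).fn) (ind F F₂ (ψ.res le₂).fn))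

/-- Stark's equality `A(χ)^σ = A(χ^σ)` (at all sufficiently large levels) -/
def StarkEq {K : Type} [Field K] [NumberField K] {F : Sub K} (χ : Fn F) (σ : ℂ ≃+* ℂ) : Prop :=
  Eventually fun ℓ : Lvl K => σ (ℓ.A χ) = ℓ.A (conj σ χ)

/-- (1) **Dihedral relations** and the resulting product formulas for Artin L-functions and for
Stark's numbers, for all linear characters and all nontrivial twists -/
def Relations (K : Type) [Field K] [NumberField K] : Prop :=
  ∀ (F : Sub K) (ψ η : Lin F), FinExt F → ψ.smooth → Twister ψ η → (∃ g, η.fn g ≠ 1) →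
    ∃ d : Dihedral ψ η, Eventually fun ℓ : Lvl K =>
      (∀ s : ℂ, 1 < s.re → ℓ.L ψ.fn s * ℓ.L (ψ.res d.le₃).fn s =
        ℓ.L (ψ.mul η).fn s * (ℓ.L (ψ.res d.le₁).fn s * ℓ.L (ψ.res d.le₂).fn s)) ∧
      ℓ.A ψ.fn * ℓ.A (ψ.res d.le₃).fn =
        ℓ.A (ψ.mul η).fn * (ℓ.A (ψ.res d.le₁).fn * ℓ.A (ψ.res d.le₂).fn)

/-- (2) **Existence of twists** with prescribed values at the complex conjugations: `P` is a set of
complex conjugations stable under conjugation -/
def Twists (K : Type) [Field K] [NumberField K] : Prop :=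
  ∀ (F : Sub K) (ψ : Lin F) (P : Set (GalF F)), FinExt F → ψ.smooth →
    (∀ c ∈ P, ∀ g : GalF F, g⁻¹ * c * g ∈ P) →
    ∃ η : Lin F, Twister ψ η ∧ ∀ c : GalF F, CCj (c : Gal(AlgebraicClosure K/K)) →
      (c ∈ P → η.fn c = -1) ∧ (c ∉ P → η.fn c = 1)

/-- (3) **The induction theorem** over totally real fields `F`: a character is an integral combination
of characters induced from linear characters over totally real fields if and only if the complex
conjugations commute in the representation -/
def InductionReal (K : Type) [Field K] [NumberField K] : Prop :=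
  ∀ (F : Sub K) (χ : Fn F), FinExt F → TotReal F → Char χ →
    (CharCC χ ↔ (χ : GalF F → ℂ) ∈ AddSubgroup.closure (G := GalF F → ℂ)
      {f | ∃ (F' : Sub K) (ψ : Lin F'), F ≤ F' ∧ FinExt F' ∧ TotReal F' ∧ ψ.smooth ∧
        f = ind F F' ψ.fn})

/-- (4) **Additive inductive functions** of characters, with values in any abelian group, which
vanish at the linear characters unramified at all finite places: they do not change under twists;
they vanish at the characters over totally real fields with commuting complex conjugations if they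
vanish at the linear characters of one parity `s = ±1` -/
def Functions (K : Type) [Field K] [NumberField K] : Prop :=
  ∀ (B : Type) [AddCommGroup B] (D : ∀ F : Sub K, Fn F → B), AddInd D →
    (∀ (F : Sub K) (ψ : Lin F), FinExt F → ψ.smooth → ψ.unram → D F ψ.fn = 0) →
    (∀ (F : Sub K) (ψ η : Lin F), FinExt F → ψ.smooth → Twister ψ η →
      D F (ψ.mul η).fn = D F ψ.fn) ∧
    ∀ s : ℂ, s = 1 ∨ s = -1 →
      (∀ (F : Sub K) (ψ : Lin F), FinExt F → TotReal F → ψ.smooth → ψ.parity s →
        D F ψ.fn = 0) →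
      ∀ (F : Sub K) (χ : Fn F), FinExt F → TotReal F → CharCC χ → D F χ = 0

/-- (5) **Stark's conjecture**, granted for the linear characters which are unramified at all finite
places: it holds for `ψη` if and only if it holds for `ψ`; over totally real fields, for a linear
character if and only if for a totally odd twist, and it holds for all characters with commuting
complex conjugations if it holds for the totally odd linear characters (Siegel's theorem) -/
def StarkExact (K : Type) [Field K] [NumberField K] : Prop :=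
  ∀ σ : ℂ ≃+* ℂ,
    (∀ (F : Sub K) (ψ : Lin F), FinExt F → ψ.smooth → ψ.unram → StarkEq ψ.fn σ) →
    (∀ (F : Sub K) (ψ η : Lin F), FinExt F → ψ.smooth → Twister ψ η →
      (StarkEq (ψ.mul η).fn σ ↔ StarkEq ψ.fn σ)) ∧
    (∀ (F : Sub K) (ψ : Lin F), FinExt F → TotReal F → ψ.smooth →
      ∃ η : Lin F, Twister ψ η ∧ (ψ.mul η).parity (-1) ∧
        (StarkEq ψ.fn σ ↔ StarkEq (ψ.mul η).fn σ)) ∧
    ((∀ (F : Sub K) (ψ : Lin F), FinExt F → TotReal F → ψ.smooth → ψ.parity (-1) →
        StarkEq ψ.fn σ) →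
      ∀ (F : Sub K) (χ : Fn F), FinExt F → TotReal F → CharCC χ → StarkEq χ σ)

end Pool.Agent.Q20.RS.RL
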