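import Mathlib

/-!
# Matrices of finite order with maximal trace
-/

set_option autoImplicit false
set_option linter.unusedSectionVars false

namespace Pool.Agent.Q20.RS.RL.TW

open Polynomial

theorem re_root {z : ℂ} {m : ℕ} (hm : 0 < m) (hz : z ^ m = 1) : z.re ≤ 1 ∧ (z.re = 1 → z = 1) := by
  have h1 : ‖z‖ = 1 := by
    have h2 : ‖z‖ ^ m = 1 := by rw [← norm_pow, hz, norm_one]
    exact (pow_eq_one_iff_of_nonneg (norm_nonneg _) hm.ne').1 h2
  have h2 : z.re ≤ 1 := h1 ▸ Complex.re_le_norm z
  refine ⟨h2, fun h3 => ?_⟩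
  have h4 : Complex.normSq z = 1 := by rw [Complex.normSq_eq_norm_sq, h1, one_pow]
  rw [Complex.normSq_apply, h3] at h4
  have h5 : z.im = 0 := by nlinarith
  exact Complex.ext h3 h5

/-- a matrix of finite order whose trace is its size is the identity -/
theorem eq_one_of_trace {n : ℕ} (M : Matrix (Fin n) (Fin n) ℂ) {m : ℕ} (hm : 0 < m)
    (hM : M ^ m = 1) (ht : M.trace = n) : M = 1 := by
  -- the eigenvalues
  have hroot : ∀ z ∈ M.charpoly.roots, z ^ m = 1 := by
    intro z hz
    have h1 : M.charpoly.IsRoot z := (Polynomial.mem_roots (Matrix.charpoly_monic M).ne_zero).1 hz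
    have h2 : Module.End.HasEigenvalue (Matrix.toLin' M) z := by
      rw [Module.End.hasEigenvalue_iff_isRoot_charpoly, Matrix.charpoly_toLin']
      exact h1
    obtain ⟨v, hv⟩ := h2.exists_hasEigenvector
    have h3 : ∀ k : ℕ, ((Matrix.toLin' M) ^ k) v = z ^ k • v := by
      intro k
      induction k with
      | zero => rw [pow_zero, pow_zero, one_smul]; rfl
      | succ k ih =>
        rw [pow_succ', Module.End.mul_apply, ih, map_smul, hv.apply_eq_smul, smul_smul, pow_succ]
    have h4 := h3 m
    rw [← Matrix.toLin'_pow, hM, Matrix.toLin'_one] at h4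
    have h5 : (z ^ m - 1) • v = 0 := by
      rw [sub_smul, ← h4, one_smul]
      exact sub_self _
    exact sub_eq_zero.1 ((smul_eq_zero.1 h5).resolve_right hv.2)
  have hcard : Multiset.card M.charpoly.roots = n := by
    have h1 := (IsAlgClosed.splits M.charpoly).natDegree_eq_card_roots
    rw [← h1, Matrix.charpoly_natDegree_eq_dim, Fintype.card_fin]
  have hsum : M.charpoly.roots.sum = n := by
    rw [← Matrix.trace_eq_sum_roots_charpoly, ht]
  have key : ∀ s : Multiset ℂ, (∀ z ∈ s, z ^ m = 1) → s.sum.re ≤ Multiset.card s ∧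
      (s.sum.re = Multiset.card s → ∀ z ∈ s, z = 1) := by
    intro s
    induction s using Multiset.induction_on with
    | empty => intro _; simp
    | cons a s ih =>
      intro hs
      obtain ⟨h1, h2⟩ := ih fun z hz => hs z (Multiset.mem_cons_of_mem hz)
      obtain ⟨h3, h4⟩ := re_root hm (hs a (Multiset.mem_cons_self a s))
      rw [Multiset.sum_cons, Complex.add_re, Multiset.card_cons, Nat.cast_add, Nat.cast_one]
      refine ⟨by linarith, fun h5 z hz => ?_⟩
      rcases Multiset.mem_cons.1 hz with rfl | hz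
      · exact h4 (by linarith)
      · exact h2 (by linarith) z hz
  have hall : ∀ z ∈ M.charpoly.roots, z = 1 := by
    refine (key _ hroot).2 ?_
    rw [hsum, hcard, Complex.natCast_re]
  have hrep : M.charpoly.roots = Multiset.replicate n 1 := by
    rw [Multiset.eq_replicate]
    exact ⟨hcard, hall⟩
  have hchar : M.charpoly = (X - C 1) ^ n := by
    have h1 := (IsAlgClosed.splits M.charpoly).eq_prod_roots_of_monic (Matrix.charpoly_monic M)
    rw [hrep, Multiset.map_replicate, Multiset.prod_replicate] at h1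
    exact h1
  have hnil : IsNilpotent (M - 1) := by
    refine ⟨n, ?_⟩
    have h1 := Matrix.aeval_self_charpoly M
    rw [hchar, map_pow, map_sub, aeval_X, aeval_C, map_one] at h1
    exact h1
  -- the geometric sum is a unit
  have hgeom : (∑ i ∈ Finset.range m, M ^ i) * (M - 1) = 0 := by
    rw [geom_sum_mul, hM, sub_self]
  have hpow : ∀ i : ℕ, ∃ W : Matrix (Fin n) (Fin n) ℂ, Commute W M ∧ M ^ i - 1 = W * (M - 1) := by
    intro i
    refine ⟨∑ j ∈ Finset.range i, M ^ j, ?_, (geom_sum_mul M i).symm⟩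
    exact Commute.sum_left _ _ _ fun j _ => (Commute.refl M).pow_left j
  choose W hW1 hW2 using hpow
  have hdec : (∑ i ∈ Finset.range m, M ^ i) = (m : Matrix (Fin n) (Fin n) ℂ) +
      (∑ i ∈ Finset.range m, W i) * (M - 1) := by
    rw [Finset.sum_mul, Finset.sum_congr rfl fun i _ => (hW2 i).symm, Finset.sum_sub_distrib,
      Finset.sum_const, Finset.card_range, nsmul_eq_mul, mul_one]
    abel
  have hcomm : Commute (∑ i ∈ Finset.range m, W i) (M - 1) :=
    Commute.sum_left _ _ _ fun i _ => (hW1 i).sub_right (Commute.one_right _)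
  have hnil2 : IsNilpotent ((∑ i ∈ Finset.range m, W i) * (M - 1)) :=
    hcomm.isNilpotent_mul_left hnil
  have hunit : IsUnit (∑ i ∈ Finset.range m, M ^ i) := by
    rw [hdec]
    refine hnil2.isUnit_add_left_of_commute ?_ (Nat.cast_commute m _).symm
    have h1 : (m : Matrix (Fin n) (Fin n) ℂ) = algebraMap ℂ _ (m : ℂ) := by
      rw [map_natCast]
    rw [h1]
    exact (IsUnit.mk0 (m : ℂ) (by exact_mod_cast hm.ne')).map _
  exact sub_eq_zero.1 ((hunit.mul_right_eq_zero).1 hgeom)

end Pool.Agent.Q20.RS.RL.TW
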