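import Pool.Agent.Q20.TW.Tw3
import Pool.Agent.Q20.EX.All
import Pool.Agent.Q53.EX.Tw1
import Pool.Agent.Q53.EX.UnrE
import Pool.Agent.Q275.EX.Dih
import Pool.Agent.Q275.EX.Res
import Pool.Agent.Q111.EX.Fin

/-!
# The dihedral twist theorem
-/

set_option autoImplicit false

namespace Pool.Agent.Q20.RS.RL.TW

open Pool.Agent.Q20.EX

/-- **The dihedral twist theorem.** -/
theorem twist (K : Type) [Field K] [NumberField K] : TwistS K :=
  fun F hF ψ η hψ hη h2 hne hsp => twist0 Pool.Agent.Q38.EX.nrm Pool.Agent.Q285.EX.ncg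
    Pool.Agent.Q111.EX.good Pool.Agent.Q53.EX.unr Pool.Agent.Q285.EX.triv Pool.Agent.Q275.EX.res
    Pool.Agent.Q111.EX.trv2 Pool.Agent.Q275.EX.dih Pool.Agent.Q53.EX.tw2 all_LOC hF ψ η hψ hη h2
    hne hsp

end Pool.Agent.Q20.RS.RL.TW
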