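import Pool.Agent.Q20.TW.Std
import Pool.Agent.Q20.TW.Tw4
import Pool.Agent.Q20.TW.Tr
import Pool.Agent.Q20.RL.Prd

/-!
# Quadratic twists, dihedral relations, and Stark's conjecture: proofs
-/

set_option autoImplicit false
set_option linter.unusedSectionVars false

namespace Pool.Agent.Q20.RS.RL

open NumberField IsDedekindDomain
open Pool.Agent.Q246.BI (Smooth IsCharacter induced)
open Pool.Agent.Q20.TR (bt)
open Pool.Agent.Q20.LG (indF RChar)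
open TW
open scoped Classical

section
variable {K : Type} [Field K] [NumberField K]

theorem unram_iff {F : Sub K} (ψ : GalF F →* ℂˣ) : Lin.unram (F := F) ψ ↔ Unrf ψ := by
  unfold Lin.unram Unrf
  refine forall_congr' fun p => forall_congr' fun hp => forall_congr' fun w =>
    forall_congr' fun hw => forall_congr' fun g => forall_congr' fun hg => ?_
  change ((ψ g : ℂˣ) : ℂ) = 1 ↔ ψ g = 1
  rw [Units.val_eq_one]

theorem twister_iff {F : Sub K} (ψ η : GalF F →* ℂˣ) : Twister (F := F) ψ η ↔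
    Smt η ∧ (∀ g, η g * η g = 1) ∧ SplitAt ψ η := by
  constructor
  · rintro ⟨h1, h2, h3⟩
    refine ⟨h1, fun g => Units.ext (h2 g), ?_⟩
    rintro p hp w hw ⟨g, hg, hne⟩ k hk
    exact Units.ext (h3 p hp w hw ⟨g, hg, fun h => hne (Units.ext h)⟩ k hk)
  · rintro ⟨h1, h2, h3⟩
    refine ⟨h1, fun g => ?_, ?_⟩
    · change ((η g : ℂˣ) : ℂ) * ((η g : ℂˣ) : ℂ) = 1
      rw [← Units.val_mul, h2, Units.val_one]
    · rintro p hp w hw ⟨g, hg, hne⟩ k hk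
      change ((η k : ℂˣ) : ℂ) = 1
      rw [h3 p hp w hw ⟨g, hg, fun h => hne ?_⟩ k hk, Units.val_one]
      change ((ψ g : ℂˣ) : ℂ) = 1
      rw [h, Units.val_one]

theorem exists_dihedral {F : Sub K} {ψ η : Lin F} (hF : FinExt F) (hψ : ψ.smooth)
    (hη : Twister ψ η) (hne : ∃ g, η.fn g ≠ 1) : Nonempty (Dihedral ψ η) := by
  obtain ⟨h1, h2, h3⟩ := (twister_iff (F := F) ψ η).1 hη
  obtain ⟨g₀, hg₀⟩ := hne
  let ψ' : GalF F →* ℂˣ := ψ
  let η' : GalF F →* ℂˣ := η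
  obtain ⟨F₁, F₂, F₃, h₁, h₂, h₁₃, h₂₃, hf₃, htr, hu₁, hu₂, hid⟩ :=
    Pool.Agent.Q20.RS.RL.TW.twist K F hF ψ η hψ h1 h2 ⟨g₀, fun h => hg₀ (by
      change ((η' g₀ : ℂˣ) : ℂ) = 1
      rw [show η' g₀ = 1 from h, Units.val_one])⟩ h3
  refine ⟨⟨F₁, F₂, F₃, h₁, h₂, h₁.trans h₁₃, h₁₃, h₂₃, finExt_of_le h₁₃ hf₃,
    finExt_of_le h₂₃ hf₃, hf₃, fun g hg => ?_, (unram_iff _).2 hu₁, (unram_iff _).2 hu₂,
    (unram_iff _).2 (hu₁.res h₁₃), ?_⟩⟩
  · change ((η' g : ℂˣ) : ℂ) = 1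
    rw [show η' g = 1 from htr g hg, Units.val_one]
  funext g
  have h4 := hid g
  change ((ψ' g : ℂˣ) : ℂ) + _ = (((ψ' g * η' g : ℂˣ)) : ℂ) + _
  rw [Units.val_mul]
  exact h4

theorem smooth_res {F F' : Sub K} (h : F ≤ F') {ψ : Lin F} (hψ : ψ.smooth) : (ψ.res h).smooth :=
  smt_res h hψ

theorem smooth_mul {F : Sub K} {ψ η : Lin F} (hψ : ψ.smooth) (hη : η.smooth) :
    (ψ.mul η).smooth := smt_mul hψ hη

theorem smooth_char {F : Sub K} {ψ : Lin F} (hψ : ψ.smooth) : Char ψ.fn := lin_char ψ hψ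

/-- the relation after induction to `K` -/
theorem induced_relation {F : Sub K} {ψ η : Lin F} (hF : FinExt F) (hψ : ψ.smooth)
    (hη : η.smooth) (d : Dihedral ψ η) (g : (bt K).fixingSubgroup) :
    induced (bt K) F (ψ.mul η).fn g = induced (bt K) F ψ.fn g +
      induced (bt K) d.F₃ (ψ.res d.le₃).fn g - induced (bt K) d.F₁ (ψ.res d.le₁).fn g -
      induced (bt K) d.F₂ (ψ.res d.le₂).fn g := by
  have c := smooth_char hψ
  have c₁ := smooth_char (smooth_res d.le₁ hψ)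
  have c₂ := smooth_char (smooth_res d.le₂ hψ)
  have c₃ := smooth_char (smooth_res d.le₃ hψ)
  have cη := smooth_char (smooth_mul hψ hη)
  have i₁ := ind_char' hF d.fin₁ c₁
  have i₂ := ind_char' hF d.fin₂ c₂
  have i₃ := ind_char' hF d.fin₃ c₃
  have h1 := congrArg (fun f => induced (bt K) F f g) d.relation
  have e1 := induced_plus hF c i₃ g
  have e2 := induced_plus hF cη (plus_char hF i₁ i₂) g
  have e3 := induced_plus hF i₁ i₂ g
  have t : ∀ (F' : Sub K) (h : F ≤ F') (_ : FinExt F') (_ : Char (ψ.res h).fn),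
      induced (bt K) F (ind F F' (ψ.res h).fn) g = induced (bt K) F' (ψ.res h).fn g :=
    fun F' h hf hc => congrFun (Pool.Agent.Q20.LG.induced_trans (bt K) F F' bot_le h hF hf
      (char_conj_inv hc)) g
  change induced (bt K) F (plus ψ.fn _) g = induced (bt K) F (plus _ _) g at h1
  rw [e1, e2, e3, t _ d.le₁ d.fin₁ c₁, t _ d.le₂ d.fin₂ c₂, t _ d.le₃ d.fin₃ c₃] at h1
  linear_combination -h1

theorem artinL_ne (ℓ : Lvl K) {F : Sub K} (χ : Fn F) (s : ℂ) : ℓ.L χ s ≠ 0 := Complex.exp_ne_zero _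

theorem relations : Relations K := by
  intro F ψ η hF hψ hη hne
  obtain ⟨d⟩ := exists_dihedral hF hψ hη hne
  refine ⟨d, ?_⟩
  have c := smooth_char hψ
  have c₁ := smooth_char (smooth_res d.le₁ hψ)
  have c₂ := smooth_char (smooth_res d.le₂ hψ)
  have c₃ := smooth_char (smooth_res d.le₃ hψ)
  have cη := smooth_char (smooth_mul hψ hη.smooth)
  let l : List (Term K) := [⟨F, ψ, 1⟩, ⟨d.F₃, ψ.res d.le₃, 1⟩, ⟨d.F₁, ψ.res d.le₁, -1⟩,
    ⟨d.F₂, ψ.res d.le₂, -1⟩]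
  obtain ⟨N₀, hN₀, h1⟩ := prod_of_mem hF cη 1 (l := l) (fun t ht => by
      rcases List.mem_cons.1 ht with rfl | ht
      · exact ⟨hF, hψ⟩
      rcases List.mem_cons.1 ht with rfl | ht
      · exact ⟨d.fin₃, smooth_res d.le₃ hψ⟩
      rcases List.mem_cons.1 ht with rfl | ht
      · exact ⟨d.fin₁, smooth_res d.le₁ hψ⟩
      rcases List.mem_cons.1 ht with rfl | ht
      · exact ⟨d.fin₂, smooth_res d.le₂ hψ⟩
      · exact absurd ht List.not_mem_nil) (by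
    funext g
    rw [one_nsmul]
    change ((1 : ℤ) • induced (bt K) F ψ.fn + ((1 : ℤ) • induced (bt K) d.F₃ (ψ.res d.le₃).fn +
      ((-1 : ℤ) • induced (bt K) d.F₁ (ψ.res d.le₁).fn +
      ((-1 : ℤ) • induced (bt K) d.F₂ (ψ.res d.le₂).fn + 0)))) g = _
    rw [one_zsmul, one_zsmul, neg_one_zsmul, neg_one_zsmul, add_zero, Pi.add_apply, Pi.add_apply,
      Pi.add_apply, Pi.neg_apply, Pi.neg_apply, induced_relation hF hψ hη.smooth d g]
    ring)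
  have hA := ((A_ne hF c).and (A_ne d.fin₃ c₃)).and ((A_ne d.fin₁ c₁).and (A_ne d.fin₂ c₂))
  have h2 : Eventually fun ℓ : Lvl K => (∀ s : ℂ, 1 < s.re → ℓ.L (ψ.mul η).fn s ^ 1 =
      ℓ.L ψ.fn s ^ (1 : ℤ) * (ℓ.L (ψ.res d.le₃).fn s ^ (1 : ℤ) *
        (ℓ.L (ψ.res d.le₁).fn s ^ (-1 : ℤ) * (ℓ.L (ψ.res d.le₂).fn s ^ (-1 : ℤ) * 1)))) ∧
      ℓ.A (ψ.mul η).fn ^ 1 = ℓ.A ψ.fn ^ (1 : ℤ) * (ℓ.A (ψ.res d.le₃).fn ^ (1 : ℤ) *
        (ℓ.A (ψ.res d.le₁).fn ^ (-1 : ℤ) * (ℓ.A (ψ.res d.le₂).fn ^ (-1 : ℤ) * 1))) :=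
    ⟨N₀, hN₀, fun ℓ hℓ => h1 ℓ.old hℓ⟩
  refine (h2.and hA).mono fun ℓ hℓ => ?_
  obtain ⟨⟨a1, a2⟩, ⟨b, b₃⟩, b₁, b₂⟩ := hℓ
  refine ⟨fun s hs => ?_, ?_⟩
  · have a3 := a1 s hs
    have n₁ := artinL_ne ℓ (ψ.res d.le₁).fn s
    have n₂ := artinL_ne ℓ (ψ.res d.le₂).fn s
    rw [pow_one, zpow_one, zpow_one, zpow_neg_one, zpow_neg_one, mul_one] at a3
    rw [a3]
    field_simp
  · rw [pow_one, zpow_one, zpow_one, zpow_neg_one, zpow_neg_one, mul_one] at a2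
    rw [a2]
    field_simp

theorem twists : Twists K := by
  intro F ψ P hF hψ hP
  let P' : Gal(AlgebraicClosure K/K) → Prop := fun c => ∃ h : c ∈ F.fixingSubgroup,
    (⟨c, h⟩ : GalF F) ∈ P
  obtain ⟨η, h1, h2, h3, h4⟩ := exists_eta hF ψ hψ P' (by
    rintro g c ⟨hc, hcP⟩
    exact ⟨F.fixingSubgroup.mul_mem (F.fixingSubgroup.mul_mem (F.fixingSubgroup.inv_mem g.2) hc)
      g.2, hP _ hcP g⟩)
  refine ⟨η, (twister_iff (F := F) ψ η).2 ⟨h1, h2, h3⟩, fun c hc => ⟨fun hcP => ?_, fun hcP => ?_⟩⟩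
  · have h5 := (h4 c hc).1 ⟨c.2, hcP⟩
    change ((η c : ℂˣ) : ℂ) = -1
    rw [h5, Units.val_neg, Units.val_one]
  · have h5 := (h4 c hc).2 fun ⟨_, h⟩ => hcP h
    change ((η c : ℂˣ) : ℂ) = 1
    rw [h5, Units.val_one]

theorem totReal_iff (F : Sub K) : TotReal F ↔ TReal F := Iff.rfl

/-- the generators are trivial at commutators of complex conjugations -/
theorem ind_comm {F F' : Sub K} (hr : TotReal F') (ψ : Lin F') {c c' : GalF F}
    (hc : CCj (c : Gal(AlgebraicClosure K/K))) (hc' : CCj (c' : Gal(AlgebraicClosure K/K))) :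
    ind F F' ψ.fn (c * c' * c⁻¹ * c'⁻¹) = ind F F' ψ.fn 1 := by
  unfold ind
  refine finsum_congr fun x => ?_
  have h1 : ∀ a : GalF F, CCj (a : Gal(AlgebraicClosure K/K)) →
      ((x.out⁻¹ * a * x.out : GalF F) : Gal(AlgebraicClosure K/K)) ∈ F'.fixingSubgroup := fun a ha =>
    TReal.mem hr (ccj_conj ha _)
  have ha := h1 c hc
  have hb := h1 c' hc'
  have e : (x.out⁻¹ * (c * c' * c⁻¹ * c'⁻¹) * x.out : GalF F) =
      (x.out⁻¹ * c * x.out) * (x.out⁻¹ * c' * x.out) * (x.out⁻¹ * c * x.out)⁻¹ *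
        (x.out⁻¹ * c' * x.out)⁻¹ := by group
  have hm : ((x.out⁻¹ * (c * c' * c⁻¹ * c'⁻¹) * x.out : GalF F) : Gal(AlgebraicClosure K/K)) ∈
      F'.fixingSubgroup := by
    rw [e]
    exact F'.fixingSubgroup.mul_mem (F'.fixingSubgroup.mul_mem (F'.fixingSubgroup.mul_mem ha hb)
      (F'.fixingSubgroup.inv_mem ha)) (F'.fixingSubgroup.inv_mem hb)
  have hm1 : ((x.out⁻¹ * (1 : GalF F) * x.out : GalF F) : Gal(AlgebraicClosure K/K)) ∈
      F'.fixingSubgroup := by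
    rw [mul_one, inv_mul_cancel]
    exact F'.fixingSubgroup.one_mem
  rw [dif_pos hm, dif_pos hm1]
  let ψ' : GalF F' →* ℂˣ := ψ
  change ((ψ' _ : ℂˣ) : ℂ) = ((ψ' _ : ℂˣ) : ℂ)
  have e1 : (⟨_, hm⟩ : GalF F') = ⟨_, ha⟩ * ⟨_, hb⟩ * (⟨_, ha⟩ : GalF F')⁻¹ * (⟨_, hb⟩ : GalF F')⁻¹ := by
    apply Subtype.ext
    change ((x.out⁻¹ * (c * c' * c⁻¹ * c'⁻¹) * x.out : GalF F) : Gal(AlgebraicClosure K/K)) = _
    rw [e]
    rfl
  have e2 : (⟨_, hm1⟩ : GalF F') = 1 := by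
    apply Subtype.ext
    change ((x.out⁻¹ * (1 : GalF F) * x.out : GalF F) : Gal(AlgebraicClosure K/K)) = 1
    rw [mul_one, inv_mul_cancel]
    rfl
  rw [e1, e2, map_mul, map_mul, map_mul, map_inv, map_inv, map_one, mul_comm (ψ' ⟨_, ha⟩),
    mul_inv_cancel_right, mul_inv_cancel]

theorem smt_finite {F : Sub K} {n : ℕ} {τ : GalF F →* GL (Fin n) ℂ} (h : Smt τ) (g : GalF F) :
    ∃ m : ℕ, 0 < m ∧ τ g ^ m = 1 := by
  obtain ⟨E, hE, h1⟩ := h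
  have hfd : FiniteDimensional K E := hE
  have h2 : E.fixingSubgroup.FiniteIndex := Pool.Agent.Q246.BI.fin_index E
  have h3 : (E.fixingSubgroup.subgroupOf F.fixingSubgroup).FiniteIndex := inferInstance
  have h4 : τ.ker.FiniteIndex := Subgroup.finiteIndex_of_le fun g hg =>
    MonoidHom.mem_ker.2 (h1 g (Subgroup.mem_subgroupOf.1 hg))
  have h5 : Finite (GalF F ⧸ τ.ker) := Subgroup.finite_quotient_of_finiteIndex
  have h6 : Finite τ.range := Finite.of_equiv _ (QuotientGroup.quotientKerEquivRange τ).toEquiv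
  obtain ⟨m, hm, h7⟩ := (isOfFinOrder_of_finite (⟨τ g, g, rfl⟩ : τ.range)).exists_pow_eq_one
  exact ⟨m, hm, congrArg Subtype.val h7⟩

theorem induction_real : InductionReal K := by
  intro F χ hF hr hχ
  constructor
  · rintro ⟨n, τ, hτ, hχτ, hc⟩
    have h1 := span_real hF hr τ hτ hc
    have h2 : (χ : GalF F → ℂ) = fun g => (τ g : Matrix (Fin n) (Fin n) ℂ).trace := funext hχτ
    rw [h2]
    exact h1
  · intro h
    obtain ⟨n, τ, hτ, hχτ⟩ := hχ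
    refine ⟨n, τ, hτ, hχτ, fun c c' hc hc' => ?_⟩
    have h1 : ∀ f ∈ AddSubgroup.closure (G := GalF F → ℂ)
        {f | ∃ (F' : Sub K) (ψ : Lin F'), F ≤ F' ∧ FinExt F' ∧ TotReal F' ∧ ψ.smooth ∧
          f = ind F F' ψ.fn}, f (c * c' * c⁻¹ * c'⁻¹) = f 1 := by
      intro f hf
      induction hf using AddSubgroup.closure_induction with
      | mem f hf =>
        obtain ⟨F', ψ, -, -, hr', -, rfl⟩ := hf
        exact ind_comm hr' ψ hc hc'
      | zero => rfl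
      | add a b _ _ ha hb => rw [Pi.add_apply, Pi.add_apply, ha, hb]
      | neg a _ ha => rw [Pi.neg_apply, Pi.neg_apply, ha]
    have h2 := h1 _ h
    rw [hχτ, hχτ, map_one, Units.val_one, Matrix.trace_one, Fintype.card_fin] at h2
    obtain ⟨m, hm, h3⟩ := smt_finite hτ (c * c' * c⁻¹ * c'⁻¹)
    have h4 : τ (c * c' * c⁻¹ * c'⁻¹) = 1 := by
      apply Units.ext
      refine eq_one_of_trace _ hm ?_ h2
      rw [← Units.val_pow_eq_pow_val, h3, Units.val_one]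
    rw [map_mul, map_mul, map_mul, map_inv, map_inv, mul_inv_eq_one, mul_inv_eq_iff_eq_mul] at h4
    exact h4

theorem functions : Functions K := by
  intro B _ D hD hu
  have hu' : ∀ F : Sub K, FinExt F → ∀ ψ : Lin F, Smt (F := F) ψ → Unrf (F := F) ψ →
      D F ψ.fn = 0 := fun F hF ψ h1 h2 => hu F ψ hF h1 ((unram_iff _).2 h2)
  refine ⟨fun F ψ η hF hψ hη => ?_, fun s hs hp F χ hF hr hχ => ?_⟩
  · obtain ⟨h1, h2, h3⟩ := (twister_iff (F := F) ψ η).1 hη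
    exact twist_add (Pool.Agent.Q20.RS.RL.TW.twist K) hD hu' hF ψ η hψ h1 h2 h3
  · obtain ⟨n, τ, hτ, hχτ, hc⟩ := hχ
    have h2 : χ = fun g => (τ g : Matrix (Fin n) (Fin n) ℂ).trace := funext hχτ
    rw [h2]
    have key : ∀ s' : ℂˣ, (s' : ℂ) = s → (s' = 1 ∨ s' = -1) →
        D F (fun g => (τ g : Matrix (Fin n) (Fin n) ℂ).trace) = 0 := by
      intro s' hs' hs1
      refine vanish_all (Pool.Agent.Q20.RS.RL.TW.twist K) hD hu' hs1 (fun F hF hr ψ hψ hψc => hp F ψ hF hr hψ ?_) hF hr τ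
        hτ hc
      intro c hc
      change ((ψ c : ℂˣ) : ℂ) = s
      rw [hψc c hc, hs']
    rcases hs with rfl | rfl
    · exact key 1 Units.val_one (Or.inl rfl)
    · exact key (-1) (by rw [Units.val_neg, Units.val_one]) (Or.inr rfl)

/-- the defect in `ℂ^*` -/
theorem defect_bot {F : Sub K} (hF : FinExt F) {χ : Fn F} (h : Char χ) (σ : ℂ ≃+* ℂ) :
    defect (K := K) ⊥ σ F χ = 0 ↔ StarkEq χ σ := by
  have h1 := (A_ne hF h).and (A_ne hF (conj_character h σ))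
  have key : ∀ ℓ : Lvl K, ℓ.A χ ≠ 0 → ℓ.A (conj σ χ) ≠ 0 →
      (cl (⊥ : Subgroup ℂˣ) (σ (ℓ.A χ) / ℓ.A (conj σ χ)) = 0 ↔ σ (ℓ.A χ) = ℓ.A (conj σ χ)) := by
    intro ℓ a b
    rw [cl_zero _ (div_ne_zero ((map_ne_zero σ).2 a) b), Subgroup.mem_bot, Units.ext_iff,
      Units.val_mk0, Units.val_one, div_eq_one_iff_eq b]
  unfold StarkEq
  refine (germ_zero (u := fun ℓ : Lvl K => cl (⊥ : Subgroup ℂˣ)
    (σ (ℓ.A χ) / ℓ.A (conj σ χ)))).trans ?_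
  exact ⟨fun h2 => (h1.and h2).mono fun ℓ hℓ => (key ℓ hℓ.1.1 hℓ.1.2).1 hℓ.2,
    fun h2 => (h1.and h2).mono fun ℓ hℓ => (key ℓ hℓ.1.1 hℓ.1.2).2 hℓ.2⟩

theorem charCC_char {F : Sub K} {χ : Fn F} (h : CharCC χ) : Char χ := by
  obtain ⟨n, τ, h1, h2, -⟩ := h
  exact ⟨n, τ, h1, h2⟩

theorem exists_odd {F : Sub K} {ψ : Lin F} (hF : FinExt F) (hψ : ψ.smooth) {s : ℂ}
    (hs : s = 1 ∨ s = -1) : ∃ η : Lin F, Twister ψ η ∧ (ψ.mul η).parity s := by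
  have key : ∀ s' : ℂˣ, (s' : ℂ) = s → (s' = 1 ∨ s' = -1) →
      ∃ η : Lin F, Twister ψ η ∧ (ψ.mul η).parity s := by
    intro s' hs' hs1
    obtain ⟨η, h1, h2, h3, h4⟩ := exists_parity hF ψ hψ hs1
    refine ⟨η, (twister_iff (F := F) ψ η).2 ⟨h1, h2, h3⟩, fun c hc => ?_⟩
    have h5 := h4 c hc
    rw [← hs', ← h5]
    rfl
  rcases hs with rfl | rfl
  · exact key 1 Units.val_one (Or.inl rfl)
  · exact key (-1) (by rw [Units.val_neg, Units.val_one]) (Or.inr rfl)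

theorem stark_exact : StarkExact K := by
  intro σ hu
  obtain ⟨h1, h2⟩ := functions (K := K) (Germs K ⊥) (defect (K := K) ⊥ σ) (defect_addInd ⊥ σ)
    (fun F ψ hF hψ h => (defect_bot hF (smooth_char hψ) σ).2 (hu F ψ hF hψ h))
  have h3 : ∀ (F : Sub K) (ψ η : Lin F), FinExt F → ψ.smooth → Twister ψ η →
      (StarkEq (ψ.mul η).fn σ ↔ StarkEq ψ.fn σ) := by
    intro F ψ η hF hψ hη
    rw [← defect_bot hF (smooth_char (smooth_mul hψ hη.smooth)) σ, ← defect_bot hF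
      (smooth_char hψ) σ, h1 F ψ η hF hψ hη]
  refine ⟨h3, fun F ψ hF hr hψ => ?_, fun hp F χ hF hr hχ => ?_⟩
  · obtain ⟨η, hη, ho⟩ := exists_odd hF hψ (Or.inr rfl)
    exact ⟨η, hη, ho, (h3 F ψ η hF hψ hη).symm⟩
  · exact (defect_bot hF (charCC_char hχ) σ).1 (h2 (-1) (Or.inr rfl) (fun F ψ hF hr hψ hs =>
      (defect_bot hF (smooth_char hψ) σ).2 (hp F ψ hF hr hψ hs)) F χ hF hr hχ)

end

end Pool.Agent.Q20.RS.RL
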