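import Pool.Agent.Q246.BI.Solo

/-!
# Brauer's theorem with subgroups containing a central subgroup
-/

set_option autoImplicit false
set_option linter.unusedSectionVars false

namespace Pool.Agent.Q20.RS.RL.TW

open Pool.Agent.Q246.BI
open scoped Classical

section
variable {G : Type} [Group G] [Finite G]

/-- functions induced from linear characters of subgroups which contain `Z` -/
def MonZ (Z : Subgroup G) : AddSubgroup (G → ℂ) :=
  AddSubgroup.closure {f | ∃ (H : Subgroup G) (ψ : H →* ℂˣ), Z ≤ H ∧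
    f = Ind H (fun h => ((ψ h : ℂˣ) : ℂ))}

/-- Brauer's theorem -/
theorem brauer_mon {χ : G → ℂ} (hχ : IsCh χ) : χ ∈ Mon (∅ : Set G) :=
  finite_main (MonoidHom.id G) ∅ (fun t ht => absurd ht (Set.notMem_empty t))
    (fun t ht => absurd ht (Set.notMem_empty t)) χ hχ

theorem aux (a b c : ℂˣ) : a * b⁻¹ * (c * b) = c * a := by
  rw [mul_comm c b, mul_assoc, inv_mul_cancel_left, mul_comm]

/-- the sum over `z ∈ Z` of `λ(z)⁻¹ φ(y z)` -/
theorem sum_z (Z H : Subgroup G) (hZ : ∀ z ∈ Z, ∀ g : G, g * z = z * g) (φ : H →* ℂˣ) (l : Z →* ℂˣ) :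
    (∀ y : G, ∑ᶠ z : Z, (((l z)⁻¹ : ℂˣ) : ℂ) * ext H (fun h => ((φ h : ℂˣ) : ℂ)) (y * z) = 0) ∨
    ∃ (A : Subgroup G) (φ' : A →* ℂˣ), Z ≤ A ∧
      (Nat.card A * Nat.card (H ⊓ Z : Subgroup G) = Nat.card H * Nat.card Z) ∧
      ∀ y : G, ∑ᶠ z : Z, (((l z)⁻¹ : ℂˣ) : ℂ) * ext H (fun h => ((φ h : ℂˣ) : ℂ)) (y * z) =
        Nat.card (H ⊓ Z : Subgroup G) * ext A (fun a => ((φ' a : ℂˣ) : ℂ)) y := by
  have hft : Fintype Z := Fintype.ofFinite Z
  by_cases hcomp : ∀ (h : H) (hz : (h : G) ∈ Z), φ h = l ⟨h, hz⟩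
  · right
    let mlt : H × Z →* G :=
      { toFun := fun p => (p.1 : G) * p.2
        map_one' := by
          change (1 : G) * 1 = 1
          rw [mul_one]
        map_mul' := fun a b => by
          change ((a.1 : G) * b.1) * ((a.2 : G) * b.2) = (a.1 * a.2) * (b.1 * b.2)
          have h1 := hZ a.2 a.2.2 (b.1 : G)
          calc ((a.1 : G) * b.1) * ((a.2 : G) * b.2) = a.1 * ((b.1 : G) * a.2) * b.2 := by group
            _ = a.1 * ((a.2 : G) * b.1) * b.2 := by rw [h1]
            _ = _ := by group }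
    have hm : ∀ p : H × Z, mlt p = (p.1 : G) * p.2 := fun p => rfl
    let Φ : H × Z →* ℂˣ :=
      { toFun := fun p => φ p.1 * l p.2
        map_one' := by
          change φ 1 * l 1 = 1
          rw [map_one, map_one, one_mul]
        map_mul' := fun a b => by
          change φ (a.1 * b.1) * l (a.2 * b.2) = (φ a.1 * l a.2) * (φ b.1 * l b.2)
          rw [map_mul, map_mul, mul_mul_mul_comm] }
    have hk : mlt.rangeRestrict.ker ≤ Φ.ker := by
      intro p hp
      have h1 : (p.1 : G) * p.2 = 1 := congrArg Subtype.val (MonoidHom.mem_ker.1 hp)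
      have h2 : (p.1 : G) = ((p.2⁻¹ : Z) : G) := eq_inv_of_mul_eq_one_left h1
      have h3 : (p.1 : G) ∈ Z := by rw [h2]; exact (p.2⁻¹ : Z).2
      have h4 := hcomp p.1 h3
      have h5 : (⟨(p.1 : G), h3⟩ : Z) = p.2⁻¹ := Subtype.ext h2
      rw [h5, map_inv] at h4
      rw [MonoidHom.mem_ker]
      change φ p.1 * l p.2 = 1
      rw [h4, inv_mul_cancel]
    let φ' : mlt.range →* ℂˣ := mlt.rangeRestrict.liftOfSurjective
      mlt.rangeRestrict_surjective ⟨Φ, hk⟩
    have hφ' : ∀ p : H × Z, ∀ h : mlt p ∈ mlt.range, φ' ⟨mlt p, h⟩ = φ p.1 * l p.2 := fun p h =>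
      MonoidHom.liftOfRightInverse_comp_apply _ _ _ ⟨Φ, hk⟩ p
    refine ⟨mlt.range, φ', fun z hz => ⟨(1, ⟨z, hz⟩), one_mul z⟩, ?_, fun y => ?_⟩
    · have h1 : Nat.card mlt.ker = Nat.card (H ⊓ Z : Subgroup G) := by
        refine Nat.card_congr
          { toFun := fun p => ⟨(p.1.1 : G), p.1.1.2, ?_⟩
            invFun := fun h => ⟨(⟨h, h.2.1⟩, ⟨h, h.2.2⟩⁻¹), ?_⟩
            left_inv := fun p => ?_
            right_inv := fun h => rfl }
        · have h1 : (p.1.1 : G) * p.1.2 = 1 := MonoidHom.mem_ker.1 p.2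
          have h2 : (p.1.1 : G) = ((p.1.2⁻¹ : Z) : G) := eq_inv_of_mul_eq_one_left h1
          rw [h2]
          exact (p.1.2⁻¹ : Z).2
        · rw [MonoidHom.mem_ker]
          exact mul_inv_cancel (h : G)
        · have h1 : (p.1.1 : G) * p.1.2 = 1 := MonoidHom.mem_ker.1 p.2
          apply Subtype.ext
          refine Prod.ext rfl ?_
          apply Subtype.ext
          change (p.1.1 : G)⁻¹ = (p.1.2 : G)
          exact inv_eq_of_mul_eq_one_right h1
      have h2 := mlt.ker.card_mul_index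
      rw [Subgroup.index_ker, h1, Nat.card_prod, mul_comm] at h2
      exact h2
    · by_cases hy : y ∈ mlt.range
      · obtain ⟨⟨h₁, z₁⟩, rfl⟩ := hy
        have hy' : mlt (h₁, z₁) ∈ mlt.range := ⟨(h₁, z₁), rfl⟩
        rw [ext_mem hy', hφ', finsum_eq_sum_of_fintype]
        rw [← Equiv.sum_comp (Equiv.mulLeft z₁⁻¹)]
        have h3 : ∀ u : Z, (((l (z₁⁻¹ * u))⁻¹ : ℂˣ) : ℂ) * ext H (fun h => ((φ h : ℂˣ) : ℂ))
            (mlt (h₁, z₁) * ((z₁⁻¹ * u : Z) : G)) = if (u : G) ∈ H then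
              ((φ h₁ * l z₁ : ℂˣ) : ℂ) else 0 := by
          intro u
          have h4 : mlt (h₁, z₁) * ((z₁⁻¹ * u : Z) : G) = (h₁ : G) * u := by
            change ((h₁ : G) * z₁) * ((z₁ : G)⁻¹ * u) = h₁ * u
            group
          rw [h4]
          by_cases hu : (u : G) ∈ H
          · rw [if_pos hu, ext_mem (H.mul_mem h₁.2 hu)]
            have h5 : φ ⟨(h₁ : G) * u, H.mul_mem h₁.2 hu⟩ = φ h₁ * l u := by
              have h6 := hcomp ⟨(u : G), hu⟩ u.2
              have h7 : (⟨(h₁ : G) * u, H.mul_mem h₁.2 hu⟩ : H) = h₁ * ⟨u, hu⟩ := rfl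
              rw [h7, map_mul, h6]
            rw [h5, map_mul, map_inv, ← Units.val_mul]
            congr 1
            rw [mul_inv, inv_inv]
            exact aux _ _ _
          · rw [if_neg hu, ext_not_mem, mul_zero]
            intro h5
            apply hu
            have h6 := H.mul_mem (H.inv_mem h₁.2) h5
            rwa [inv_mul_cancel_left] at h6
        have h4 : ∀ u : Z, (((l ((Equiv.mulLeft z₁⁻¹) u))⁻¹ : ℂˣ) : ℂ) *
            ext H (fun h => ((φ h : ℂˣ) : ℂ)) (mlt (h₁, z₁) * (((Equiv.mulLeft z₁⁻¹) u : Z) : G)) =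
            if (u : G) ∈ H then ((φ h₁ * l z₁ : ℂˣ) : ℂ) else 0 := h3
        rw [Finset.sum_congr rfl fun u _ => h4 u, ← Finset.sum_filter, Finset.sum_const,
          nsmul_eq_mul]
        congr 1
        rw [← Fintype.card_subtype, ← Nat.card_eq_fintype_card]
        norm_cast
        exact Nat.card_congr
          { toFun := fun u => ⟨(u.1 : G), u.2, u.1.2⟩
            invFun := fun h => ⟨⟨h, h.2.2⟩, h.2.1⟩
            left_inv := fun u => rfl
            right_inv := fun h => rfl }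
      · rw [ext_not_mem hy, mul_zero, finsum_eq_sum_of_fintype]
        refine Finset.sum_eq_zero fun z _ => ?_
        rw [ext_not_mem, mul_zero]
        intro h1
        exact hy ⟨(⟨y * z, h1⟩, z⁻¹), by
          change y * (z : G) * (z : G)⁻¹ = y
          group⟩
  · left
    push Not at hcomp
    obtain ⟨h₀, hz₀, hne⟩ := hcomp
    intro y
    rw [finsum_eq_sum_of_fintype]
    set S := ∑ z : Z, (((l z)⁻¹ : ℂˣ) : ℂ) * ext H (fun h => ((φ h : ℂˣ) : ℂ)) (y * z) with hS
    have h1 : S = ((φ h₀ * (l ⟨h₀, hz₀⟩)⁻¹ : ℂˣ) : ℂ) * S := by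
      conv_lhs => rw [hS, ← Equiv.sum_comp (Equiv.mulRight (⟨h₀, hz₀⟩ : Z))]
      rw [hS, Finset.mul_sum]
      refine Finset.sum_congr rfl fun z _ => ?_
      change (((l (z * ⟨h₀, hz₀⟩))⁻¹ : ℂˣ) : ℂ) * ext H (fun h => ((φ h : ℂˣ) : ℂ))
        (y * ((z : G) * h₀)) = _
      have h2 : ext H (fun h => ((φ h : ℂˣ) : ℂ)) (y * ((z : G) * h₀)) =
          ext H (fun h => ((φ h : ℂˣ) : ℂ)) (y * z) * ((φ h₀ : ℂˣ) : ℂ) := by
        by_cases hy : y * (z : G) ∈ H
        · have hy' : y * ((z : G) * h₀) ∈ H := by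
            rw [← mul_assoc]
            exact H.mul_mem hy h₀.2
          rw [ext_mem hy, ext_mem hy', ← Units.val_mul, ← map_mul]
          congr 2
          apply Subtype.ext
          exact (mul_assoc _ _ _).symm
        · rw [ext_not_mem hy, ext_not_mem, zero_mul]
          intro h3
          apply hy
          have h4 := H.mul_mem h3 (H.inv_mem h₀.2)
          rw [← mul_assoc, mul_inv_cancel_right] at h4
          exact h4
      rw [h2, map_mul, mul_inv, Units.val_mul, Units.val_mul]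
      ring
    by_contra h3
    have h4 : ((φ h₀ * (l ⟨h₀, hz₀⟩)⁻¹ : ℂˣ) : ℂ) = 1 := by
      have h5 : (1 : ℂ) * S = ((φ h₀ * (l ⟨h₀, hz₀⟩)⁻¹ : ℂˣ) : ℂ) * S := by rw [one_mul]; exact h1
      exact (mul_right_cancel₀ h3 h5).symm
    have h5 : φ h₀ * (l ⟨h₀, hz₀⟩)⁻¹ = 1 := Units.ext h4
    exact hne (mul_inv_eq_one.1 h5)

/-- functions induced from linear characters are combinations of functions induced from linear
characters of subgroups which contain the central subgroup `Z` -/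
theorem ind_monZ (Z H : Subgroup G) (hZ : ∀ z ∈ Z, ∀ g : G, g * z = z * g) (φ : H →* ℂˣ) :
    Ind H (fun h => ((φ h : ℂˣ) : ℂ)) ∈ MonZ Z := by
  have hft : Fintype Z := Fintype.ofFinite Z
  have hftG : Fintype G := Fintype.ofFinite G
  obtain ⟨hfin, hcard, horth⟩ := dual_sum Z fun a b => Subtype.ext (hZ b b.2 a)
  have hftd : Fintype (Z →* ℂˣ) := Fintype.ofFinite _
  have hZ0 : (Nat.card Z : ℂ) ≠ 0 := card_ne Z
  -- the projection to the `λ`-part
  let E : (Z →* ℂˣ) → G → ℂ := fun l g => (Nat.card Z : ℂ)⁻¹ * ((Nat.card H : ℂ)⁻¹ *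
    ∑ x : G, ∑ᶠ z : Z, (((l z)⁻¹ : ℂˣ) : ℂ) * ext H (fun h => ((φ h : ℂˣ) : ℂ)) (x⁻¹ * g * x * z))
  have hE : ∀ l, E l ∈ MonZ Z := by
    intro l
    rcases sum_z Z H hZ φ l with h | ⟨A, φ', hA, hc, h⟩
    · have h1 : E l = 0 := by
        funext g
        change (Nat.card Z : ℂ)⁻¹ * ((Nat.card H : ℂ)⁻¹ * _) = 0
        rw [Finset.sum_eq_zero fun x _ => h _, mul_zero, mul_zero]
      rw [h1]
      exact zero_mem _
    · refine AddSubgroup.subset_closure ⟨A, φ', hA, ?_⟩
      funext g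
      change (Nat.card Z : ℂ)⁻¹ * ((Nat.card H : ℂ)⁻¹ * _) = _
      rw [Finset.sum_congr rfl fun x _ => h _, ← Finset.mul_sum, ind_eq, ← mul_assoc, ← mul_assoc]
      congr 1
      have h2 : (Nat.card A : ℂ) * (Nat.card (H ⊓ Z : Subgroup G) : ℂ) = Nat.card H * Nat.card Z := by
        exact_mod_cast hc
      have h3 := card_ne A
      have h4 := card_ne H
      field_simp
      linear_combination h2
  have hsum : Ind H (fun h => ((φ h : ℂˣ) : ℂ)) = ∑ l : Z →* ℂˣ, E l := by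
    funext g
    rw [Finset.sum_apply]
    change _ = ∑ l : Z →* ℂˣ, (Nat.card Z : ℂ)⁻¹ * ((Nat.card H : ℂ)⁻¹ * _)
    rw [← Finset.mul_sum, ← Finset.mul_sum, Finset.sum_comm, ind_eq]
    rw [mul_left_comm]
    congr 1
    rw [Finset.mul_sum]
    refine Finset.sum_congr rfl fun x _ => ?_
    have h1 : ∑ l : Z →* ℂˣ, ∑ᶠ z : Z, (((l z)⁻¹ : ℂˣ) : ℂ) *
        ext H (fun h => ((φ h : ℂˣ) : ℂ)) (x⁻¹ * g * x * z) =
        ∑ z : Z, (∑ l : Z →* ℂˣ, (((l z)⁻¹ : ℂˣ) : ℂ)) *
          ext H (fun h => ((φ h : ℂˣ) : ℂ)) (x⁻¹ * g * x * z) := by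
      simp only [finsum_eq_sum_of_fintype]
      rw [Finset.sum_comm]
      refine Finset.sum_congr rfl fun z _ => ?_
      rw [Finset.sum_mul]
    rw [h1, Finset.sum_eq_single (1 : Z)]
    · have h2 : ∑ l : Z →* ℂˣ, (((l (1 : Z))⁻¹ : ℂˣ) : ℂ) = Nat.card Z := by
        rw [Finset.sum_congr rfl fun l _ => by rw [map_one, inv_one, Units.val_one],
          Finset.sum_const, nsmul_eq_mul, mul_one, Finset.card_univ, ← Nat.card_eq_fintype_card,
          hcard]
      rw [h2, ← mul_assoc, inv_mul_cancel₀ hZ0, one_mul]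
      change _ = ext H _ (x⁻¹ * g * x * (1 : G))
      rw [mul_one]
    · intro z _ hz
      have h2 := horth z hz
      rw [finsum_eq_sum_of_fintype] at h2
      rw [h2, zero_mul]
    · intro h
      exact absurd (Finset.mem_univ _) h
  rw [hsum]
  exact sum_mem fun l _ => hE l

/-- **Brauer's theorem** with subgroups which contain a given central subgroup -/
theorem brauer_monZ (Z : Subgroup G) (hZ : ∀ z ∈ Z, ∀ g : G, g * z = z * g) {χ : G → ℂ}
    (hχ : IsCh χ) : χ ∈ MonZ Z := by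
  have h1 : Mon (∅ : Set G) ≤ MonZ Z := by
    unfold Mon
    rw [AddSubgroup.closure_le]
    rintro f ⟨H, ψ, -, rfl⟩
    exact ind_monZ Z H hZ ψ
  exact h1 (brauer_mon hχ)

/-- inflation -/
theorem MonZ.infl {R : Type} [Group R] [Finite R] (π : G →* R) (hπ : Function.Surjective π)
    (Z : Subgroup G) (ZR : Subgroup R) (hZ : ∀ s ∈ Z, π s ∈ ZR) {η : R → ℂ} (hη : η ∈ MonZ ZR) :
    (fun g => η (π g)) ∈ MonZ Z := by
  induction hη using AddSubgroup.closure_induction with
  | mem f hf =>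
    obtain ⟨H, ψ, h1, rfl⟩ := hf
    let ψ' : H.comap π →* ℂˣ :=
      { toFun := fun k => ψ ⟨π k, k.2⟩
        map_one' := by
          rw [← map_one ψ]
          congr 1
          apply Subtype.ext
          change π 1 = 1
          exact map_one π
        map_mul' := fun a b => by
          rw [← map_mul]
          congr 1
          apply Subtype.ext
          change π (a * b) = π a * π b
          exact map_mul π _ _ }
    refine AddSubgroup.subset_closure ⟨H.comap π, ψ', fun s hs => h1 (hZ s hs), ?_⟩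
    funext g
    exact ind_infl π hπ H _ _ (fun g => Iff.rfl) _ (fun g h' h => rfl) g
  | zero => exact zero_mem (MonZ Z)
  | add a b _ _ ha hb => exact add_mem (S := AddSubgroup (G → ℂ)) ha hb
  | neg a _ ha => exact neg_mem (S := AddSubgroup (G → ℂ)) ha

end

end Pool.Agent.Q20.RS.RL.TW
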