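import Pool.Agent.Q20.TW.Cent

/-!
# Brauer's theorem with subgroups containing a normal abelian subgroup
-/

set_option autoImplicit false
set_option linter.unusedSectionVars false

namespace Pool.Agent.Q20.RS.RL.TW

open Pool.Agent.Q246.BI
open scoped Classical

section
variable {G : Type} [Group G] [Finite G]

theorem MonZ.mono {Z Z' : Subgroup G} (h : Z ≤ Z') : MonZ Z' ≤ MonZ Z := by
  apply AddSubgroup.closure_mono
  rintro f ⟨H, ψ, h1, rfl⟩
  exact ⟨H, ψ, h.trans h1, rfl⟩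

/-- induction -/
theorem MonZ.ind (H : Subgroup G) (Z : Subgroup G) (hZ : Z ≤ H) {η : H → ℂ}
    (hη : η ∈ MonZ (Z.subgroupOf H)) : Ind H η ∈ MonZ Z := by
  induction hη using AddSubgroup.closure_induction with
  | mem f hf =>
    obtain ⟨K, ψ, h1, rfl⟩ := hf
    have hK : ∀ g : G, g ∈ K.map H.subtype ↔ ∃ h : g ∈ H, (⟨g, h⟩ : H) ∈ K := by
      intro g
      constructor
      · rintro ⟨k, hk, rfl⟩
        exact ⟨k.2, hk⟩
      · rintro ⟨h, hk⟩
        exact ⟨⟨g, h⟩, hk, rfl⟩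
    let ψ' : K.map H.subtype →* ℂˣ :=
      { toFun := fun k => ψ ⟨⟨k, ((hK _).1 k.2).choose⟩, ((hK _).1 k.2).choose_spec⟩
        map_one' := map_one ψ
        map_mul' := fun a b => by
          rw [← map_mul]
          rfl }
    refine AddSubgroup.subset_closure ⟨K.map H.subtype, ψ', ?_, ?_⟩
    · intro z hz
      exact (hK z).2 ⟨hZ hz, h1 (Subgroup.mem_subgroupOf.2 hz)⟩
    · exact ind_trans H K _ _ hK _ fun k hk hk' => rfl
  | zero => rw [ind_zero]; exact zero_mem _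
  | add a b _ _ ha hb => rw [ind_add]; exact add_mem ha hb
  | neg a _ ha => rw [ind_neg]; exact neg_mem ha

/-- representations in which the elements of `Z` act as scalars -/
theorem MonZ.of_scalar {H : Type} [Group H] [Finite H] {W : Type} [AddCommGroup W] [Module ℂ W]
    [FiniteDimensional ℂ W] (ρ : H →* Module.End ℂ W) (Z : Subgroup H)
    (hZ : ∀ z ∈ Z, ∃ c : ℂ, ρ z = c • (1 : Module.End ℂ W)) :
    (fun x => LinearMap.trace ℂ W (ρ x)) ∈ MonZ Z := by
  let ρ' : H ⧸ ρ.ker →* Module.End ℂ W := QuotientGroup.lift ρ.ker ρ le_rfl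
  have hρ' : ∀ x : H, ρ' (QuotientGroup.mk' ρ.ker x) = ρ x := fun x => rfl
  have hinj : ∀ a b : H, ρ a = ρ b → QuotientGroup.mk' ρ.ker a = QuotientGroup.mk' ρ.ker b := by
    intro a b hab
    refine QuotientGroup.eq.2 (MonoidHom.mem_ker.2 ?_)
    rw [map_mul, ← hab, ← map_mul, inv_mul_cancel, map_one]
  have hcent : ∀ z ∈ Z.map (QuotientGroup.mk' ρ.ker), ∀ g : H ⧸ ρ.ker, g * z = z * g := by
    rintro _ ⟨z, hz, rfl⟩ g
    obtain ⟨g, rfl⟩ := QuotientGroup.mk'_surjective _ g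
    obtain ⟨c, hc⟩ := hZ z hz
    rw [← map_mul, ← map_mul]
    apply hinj
    rw [map_mul, map_mul, hc, mul_smul_comm, smul_mul_assoc, one_mul, mul_one]
  have h1 := brauer_monZ (Z.map (QuotientGroup.mk' ρ.ker)) hcent (isCh_of_rep ρ')
  have h2 := MonZ.infl (QuotientGroup.mk' ρ.ker) (QuotientGroup.mk'_surjective _) Z
    (Z.map (QuotientGroup.mk' ρ.ker)) (fun s hs => ⟨s, hs, rfl⟩) h1
  exact h2

/-- **Brauer's theorem** with subgroups which contain a given normal abelian subgroup -/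
theorem brauer_monN (A : Subgroup G) (hn : ∀ g a : G, a ∈ A → g⁻¹ * a * g ∈ A)
    (hA : ∀ a b : A, a * b = b * a) {χ : G → ℂ} (hχ : IsCh χ) : χ ∈ MonZ A := by
  refine clifford A hn hA (MonZ A) (fun ψ W _ _ _ ρ hρ => ?_) χ hχ
  have hle : A ≤ St A hn ψ := by
    intro a ha b
    congr 1
    apply Subtype.ext
    have h1 := congrArg Subtype.val (hA ⟨a, ha⟩ b)
    simp only [Subgroup.coe_mul] at h1
    change a⁻¹ * (b : G) * a = b
    rw [mul_assoc, ← h1, inv_mul_cancel_left]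
  exact MonZ.ind _ A hle (MonZ.of_scalar ρ _ fun z hz => ⟨_, hρ z (Subgroup.mem_subgroupOf.1 hz)⟩)

end

end Pool.Agent.Q20.RS.RL.TW
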