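import Pool.Agent.Q20.EX.Abs5
import Pool.Agent.Q20.EX.Dih2
import Pool.Agent.Q20.RL.Rea

/-!
# The dihedral twist theorem for characters of absolute Galois groups
-/

set_option autoImplicit false
set_option linter.unusedSectionVars false
set_option linter.deprecated false

namespace Pool.Agent.Q20.RS.RL.TW

open NumberField IsDedekindDomain
open Pool.Agent.Q246.BI (Smooth exists_fixed)
open Pool.Agent.Q20.EX
open scoped Classical

section
variable {K : Type} [Field K] [NumberField K]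

/-- restriction of linear characters -/
noncomputable def resL {F F' : Sub K} (h : F ≤ F') (ψ : GalF F →* ℂˣ) : GalF F' →* ℂˣ where
  toFun g := ψ ⟨g, IntermediateField.fixingSubgroup_antitone h g.2⟩
  map_one' := map_one ψ
  map_mul' a b := by
    rw [← map_mul]
    rfl

theorem resL_apply {F F' : Sub K} (h : F ≤ F') (ψ : GalF F →* ℂˣ) (g : GalF F') :
    resL h ψ g = ψ ⟨g, IntermediateField.fixingSubgroup_antitone h g.2⟩ := rfl

/-- the induced character of the restriction -/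
theorem ind_resL {F F' : Sub K} (h : F ≤ F') (ψ : GalF F →* ℂˣ) (g : GalF F) :
    ind F F' (Lin.fn (F := F') (resL h ψ)) g = ((ψ g : ℂˣ) : ℂ) *
      Dih.fix (F'.fixingSubgroup.subgroupOf F.fixingSubgroup) g := by
  unfold ind Dih.fix
  rw [← smul_eq_mul, smul_finsum]
  refine finsum_congr fun x => ?_
  by_cases hx : ((x.out⁻¹ * g * x.out : GalF F) : Gal(AlgebraicClosure K/K)) ∈ F'.fixingSubgroup
  · rw [dif_pos hx, if_pos (Subgroup.mem_subgroupOf.2 hx), smul_eq_mul, mul_one]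
    change ((ψ (x.out⁻¹ * g * x.out) : ℂˣ) : ℂ) = _
    rw [map_mul, map_mul, map_inv, mul_comm, mul_inv_cancel_left]
  · rw [dif_neg hx, if_neg fun h1 => hx (Subgroup.mem_subgroupOf.1 h1), smul_eq_mul, mul_zero]

/-- the field of an open subgroup of `Gal(K̄/F)` -/
theorem exists_fld {F : Sub K} (U : Subgroup (GalF F)) (L : Sub K) (hL : FinExt L) (hFL : F ≤ L)
    (hU : ∀ g : GalF F, (g : Gal(AlgebraicClosure K/K)) ∈ L.fixingSubgroup → g ∈ U) :
    ∃ F' : Sub K, F ≤ F' ∧ F' ≤ L ∧ FinExt F' ∧ ∀ g : Gal(AlgebraicClosure K/K),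
      g ∈ F'.fixingSubgroup ↔ ∃ h : g ∈ F.fixingSubgroup, (⟨g, h⟩ : GalF F) ∈ U := by
  have hfd : FiniteDimensional K L := hL
  have hm : ∀ g : Gal(AlgebraicClosure K/K), g ∈ U.map F.fixingSubgroup.subtype ↔
      ∃ h : g ∈ F.fixingSubgroup, (⟨g, h⟩ : GalF F) ∈ U := by
    intro g
    constructor
    · rintro ⟨v, hv, rfl⟩
      exact ⟨v.2, hv⟩
    · rintro ⟨hv, h⟩
      exact ⟨⟨g, hv⟩, h, rfl⟩
  have hLU : L.fixingSubgroup ≤ U.map F.fixingSubgroup.subtype := by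
    intro g hg
    have hv : g ∈ F.fixingSubgroup := IntermediateField.fixingSubgroup_antitone hFL hg
    exact (hm g).2 ⟨hv, hU ⟨g, hv⟩ hg⟩
  obtain ⟨F', hF'L, hF'⟩ := exists_fixed _ L hLU
  refine ⟨F', ?_, hF'L, ?_, fun g => by rw [hF']; exact hm g⟩
  · have h1 : F'.fixingSubgroup ≤ F.fixingSubgroup := by
      intro g hg
      rw [hF', hm] at hg
      exact hg.choose
    have h2 : IntermediateField.fixedField F.fixingSubgroup ≤
        IntermediateField.fixedField F'.fixingSubgroup := by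
      intro x hx
      rw [IntermediateField.mem_fixedField_iff] at hx ⊢
      exact fun g hg => hx g (h1 hg)
    rwa [InfiniteGalois.fixedField_fixingSubgroup, InfiniteGalois.fixedField_fixingSubgroup] at h2
  · exact FiniteDimensional.of_injective (IntermediateField.inclusion hF'L).toLinearMap
      (IntermediateField.inclusion hF'L).injective

theorem le_of_fix {F F' : Sub K} (h : F'.fixingSubgroup ≤ F.fixingSubgroup) : F ≤ F' := by
  have h2 : IntermediateField.fixedField F.fixingSubgroup ≤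
      IntermediateField.fixedField F'.fixingSubgroup := by
    intro x hx
    rw [IntermediateField.mem_fixedField_iff] at hx ⊢
    exact fun g hg => hx g (h hg)
  rwa [InfiniteGalois.fixedField_fixingSubgroup, InfiniteGalois.fixedField_fixingSubgroup] at h2

theorem unit_sq {z : ℂˣ} (hz : z * z = 1) (hz1 : z ≠ 1) : z = -1 := by
  have h4 : ((z : ℂ) - 1) * ((z : ℂ) + 1) = 0 := by
    have h5 := congrArg Units.val hz
    rw [Units.val_mul, Units.val_one] at h5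
    linear_combination h5
  rcases mul_eq_zero.1 h4 with h5 | h5
  · exact absurd (Units.ext (sub_eq_zero.1 h5)) hz1
  · apply Units.ext
    rw [Units.val_neg, Units.val_one]
    exact eq_neg_of_add_eq_zero_left h5

/-- linear characters with open kernel have finite image -/
theorem finite_range {F : Sub K} {X : Type} [Group X] (Δ : Subgroup (GalF F)) (β : Δ →* X)
    (L : Sub K) (hL : FinExt L)
    (hβ : ∀ g : Δ, ((g : GalF F) : Gal(AlgebraicClosure K/K)) ∈ L.fixingSubgroup → β g = 1) :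
    Finite β.range := by
  have hfd : FiniteDimensional K L := hL
  have h1 : L.fixingSubgroup.FiniteIndex := Pool.Agent.Q246.BI.fin_index L
  have h2 : (L.fixingSubgroup.subgroupOf F.fixingSubgroup).FiniteIndex := inferInstance
  have h3 : ((L.fixingSubgroup.subgroupOf F.fixingSubgroup).subgroupOf Δ).FiniteIndex :=
    inferInstance
  have h4 : β.ker.FiniteIndex := Subgroup.finiteIndex_of_le fun g hg =>
    MonoidHom.mem_ker.2 (hβ g (Subgroup.mem_subgroupOf.1 (Subgroup.mem_subgroupOf.1 hg)))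
  have h5 : Finite (Δ ⧸ β.ker) := Subgroup.finite_quotient_of_finiteIndex
  exact Finite.of_equiv _ (QuotientGroup.quotientKerEquivRange β).toEquiv

/-- `ψ` is unramified at all finite places -/
def Unrf {F : Sub K} (ψ : GalF F →* ℂˣ) : Prop :=
  ∀ p : ℕ, p.Prime → ∀ w : AlgebraicClosure K → ℝ, Plc p w → ∀ g : GalF F,
    Inr w (g : Gal(AlgebraicClosure K/K)) → ψ g = 1

/-- `η` is trivial on the decomposition groups of the finite places at which `ψ` is ramified -/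
def SplitAt {F : Sub K} (ψ η : GalF F →* ℂˣ) : Prop :=
  ∀ p : ℕ, p.Prime → ∀ w : AlgebraicClosure K → ℝ, Plc p w →
    (∃ g : GalF F, Inr w (g : Gal(AlgebraicClosure K/K)) ∧ ψ g ≠ 1) →
    ∀ g : GalF F, Dcm w (g : Gal(AlgebraicClosure K/K)) → η g = 1

theorem Unrf.res {F F' F'' : Sub K} {h : F ≤ F'} (h' : F' ≤ F'') {ψ : GalF F →* ℂˣ}
    (hu : Unrf (resL h ψ)) : Unrf (resL (h.trans h') ψ) := fun p hp w hw g hg =>
  hu p hp w hw ⟨g, IntermediateField.fixingSubgroup_antitone h' g.2⟩ hg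

variable (hNRM : S_NRM) (hNCG : S_NCG) (hGOOD : S_GOOD) (hUNR : S_UNR) (hTRIV : S_TRIV)
  (hRES : S_RES) (hTRV2 : S_TRV2) (hDIH : S_DIH) (hTW2 : S_TW2) (hLOC : S_LOC)

include hNRM hNCG hGOOD hUNR hTRIV hRES hTRV2 hDIH hTW2 hLOC in
/-- **The dihedral twist theorem.** -/
theorem twist0 {F : Sub K} (hF : FinExt F) (ψ η : GalF F →* ℂˣ) (hψ : Smt ψ) (hη : Smt η)
    (h2 : ∀ g, η g * η g = 1) (hne : ∃ g, η g ≠ 1) (hsp : SplitAt ψ η) :
    ∃ (F₁ F₂ F₃ : Sub K) (h₁ : F ≤ F₁) (h₂ : F ≤ F₂) (h₁₃ : F₁ ≤ F₃) (_ : F₂ ≤ F₃),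
      FinExt F₃ ∧ (∀ g : GalF F, (g : Gal(AlgebraicClosure K/K)) ∈ F₃.fixingSubgroup → η g = 1) ∧
      Unrf (resL h₁ ψ) ∧ Unrf (resL h₂ ψ) ∧
      ∀ g : GalF F, ((ψ g : ℂˣ) : ℂ) + ind F F₃ (Lin.fn (F := F₃) (resL (h₁.trans h₁₃) ψ)) g =
        ((ψ g : ℂˣ) : ℂ) * ((η g : ℂˣ) : ℂ) + (ind F F₁ (Lin.fn (F := F₁) (resL h₁ ψ)) g +
          ind F F₂ (Lin.fn (F := F₂) (resL h₂ ψ)) g) := by
  have hfF : FiniteDimensional K F := hF
  -- the quadratic extension
  obtain ⟨L₀, hL₀, hηL⟩ := hη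
  have hfL₀ : FiniteDimensional K L₀ := hL₀
  have hL₀F : FiniteDimensional K (L₀ ⊔ F : Sub K) := IntermediateField.finiteDimensional_sup L₀ F
  obtain ⟨E, hFE, hEL, hEfin, hE⟩ := exists_fld η.ker (L₀ ⊔ F) hL₀F le_sup_right fun g hg =>
    MonoidHom.mem_ker.2 (hηL g (IntermediateField.fixingSubgroup_antitone le_sup_left hg))
  have hfE : FiniteDimensional K E := hEfin
  have hEiff : ∀ g : GalF F, (g : Gal(AlgebraicClosure K/K)) ∈ E.fixingSubgroup ↔ η g = 1 := by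
    intro g
    rw [hE]
    exact ⟨fun ⟨_, h⟩ => MonoidHom.mem_ker.1 h, fun h => ⟨g.2, MonoidHom.mem_ker.2 h⟩⟩
  obtain ⟨s, hs⟩ := hne
  have hq : Quad F E s := by
    refine ⟨hFE, fun g hg u hu => ?_, fun h => hs ((hEiff s).1 h), fun g => ?_⟩
    · have huF : u ∈ F.fixingSubgroup := IntermediateField.fixingSubgroup_antitone hFE hu
      have h3 : η ((⟨g, hg⟩ : GalF F)⁻¹ * ⟨u, huF⟩ * ⟨g, hg⟩) = 1 := by
        rw [map_mul, map_mul, map_inv, mul_comm, mul_inv_cancel_left]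
        exact (hEiff ⟨u, huF⟩).1 hu
      exact (hEiff _).2 h3
    · by_cases hg : η g = 1
      · exact Or.inl ((hEiff g).2 hg)
      · right
        rw [hEiff, map_mul, map_inv]
        rw [unit_sq (h2 s) hs, unit_sq (h2 g) hg]
        norm_num
  obtain ⟨α, hα, hmain⟩ := twist_main hNRM hNCG hGOOD hUNR hTRIV hRES hTRV2 hDIH hTW2 hLOC hq ψ hψ
    (fun u hu hR g hg => by
      obtain ⟨p, hp, hup⟩ := hu
      exact (hEiff g).2 (hsp p hp u ((plc_iff p u).2 hup) hR g hg))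
  -- the character `β`
  let Δ : Subgroup (GalF F) := E.fixingSubgroup.subgroupOf F.fixingSubgroup
  have hΔ : ∀ g : GalF F, g ∈ Δ ↔ (g : Gal(AlgebraicClosure K/K)) ∈ E.fixingSubgroup := fun g =>
    Subgroup.mem_subgroupOf
  let toE : Δ →* E.fixingSubgroup :=
    { toFun := fun g => ⟨((g : GalF F) : Gal(AlgebraicClosure K/K)), (hΔ g).1 g.2⟩
      map_one' := rfl
      map_mul' := fun _ _ => rfl }
  let β : Δ →* ℂˣ := (α / (α.comp hq.cj)).comp toE
  have hβ : ∀ g : Δ, β g = α (toE g) / α (hq.cj (toE g)) := fun g => rfl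
  -- a normal level
  obtain ⟨L₁, hL₁, hαL⟩ := hα
  have hfL₁ : FiniteDimensional K L₁ := hL₁
  have hfL₁E : FiniteDimensional K (L₁ ⊔ E : Sub K) := IntermediateField.finiteDimensional_sup L₁ E
  obtain ⟨L, hL1, hL2, hL3, hLle⟩ := exists_normal (L₁ ⊔ E)
  have hLgal : IsGalois K L := {}
  have hLnorm : L.fixingSubgroup.Normal := inferInstance
  have hEL' : E ≤ L := le_sup_right.trans hLle
  have hLE : ∀ g : GalF F, (g : Gal(AlgebraicClosure K/K)) ∈ L.fixingSubgroup → g ∈ Δ := fun g hg =>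
    (hΔ g).2 (IntermediateField.fixingSubgroup_antitone hEL' hg)
  have hLβ : ∀ g : Δ, ((g : GalF F) : Gal(AlgebraicClosure K/K)) ∈ L.fixingSubgroup → β g = 1 := by
    intro g hg
    have h3 : α (toE g) = 1 := hαL _ (IntermediateField.fixingSubgroup_antitone
      (le_sup_left.trans hLle) hg)
    have h4 : α (hq.cj (toE g)) = 1 := hαL _ (IntermediateField.fixingSubgroup_antitone
      (le_sup_left.trans hLle) (by
        rw [Quad.cj_coe]
        exact hLnorm.conj_mem _ hg _))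
    rw [hβ, h3, h4, div_one]
  have hd : Dih.DData Δ s β := by
    have hcc : ∀ g : E.fixingSubgroup, α (hq.cj (hq.cj g)) = α g := by
      intro g
      have h3 : hq.cj (hq.cj g) = (⟨_, hq.sq⟩ : E.fixingSubgroup) * g *
          (⟨_, hq.sq⟩ : E.fixingSubgroup)⁻¹ := by
        apply Subtype.ext
        change (s : Gal(AlgebraicClosure K/K)) * ((s : Gal(AlgebraicClosure K/K)) * g *
          (s : Gal(AlgebraicClosure K/K))⁻¹) * (s : Gal(AlgebraicClosure K/K))⁻¹ =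
          ((s : Gal(AlgebraicClosure K/K)) * s) * g * ((s : Gal(AlgebraicClosure K/K)) * s)⁻¹
        group
      rw [h3, map_mul, map_mul, map_inv, mul_comm, inv_mul_cancel_left]
    refine ⟨fun h => hq.not ((hΔ s).1 h), fun g => ?_, fun g hg => ?_, fun g h => ?_, fun h => ?_,
      finite_range Δ β L hL1 hLβ⟩
    · rcases hq.two g with h3 | h3
      · exact Or.inl ((hΔ g).2 h3)
      · exact Or.inr ((hΔ _).2 h3)
    · rw [hΔ] at hg ⊢
      exact (hq.cj ⟨g, hg⟩).2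
    · have h3 : toE ⟨s * g * s⁻¹, h⟩ = hq.cj (toE g) := rfl
      rw [hβ, hβ, h3, hcc, inv_div]
    · have h3 : hq.cj (toE ⟨s * s, h⟩) = toE ⟨s * s, h⟩ := by
        apply Subtype.ext
        change (s : Gal(AlgebraicClosure K/K)) * ((s : Gal(AlgebraicClosure K/K)) * s) *
          (s : Gal(AlgebraicClosure K/K))⁻¹ = (s : Gal(AlgebraicClosure K/K)) * s
        group
      rw [hβ, h3, div_self']
  -- a generator of the image
  have hfin : Finite β.range := hd.fin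
  have hcyc : IsCyclic β.range :=
    isCyclic_of_subgroup_isDomain ((Units.coeHom ℂ).comp β.range.subtype) fun a b hab =>
      Subtype.ext (Units.ext hab)
  obtain ⟨b, hbgen⟩ := hcyc.exists_generator
  have hgen : ∀ y ∈ β.range, y ∈ Subgroup.zpowers (b : ℂˣ) := by
    intro y hy
    obtain ⟨k, hk⟩ := Subgroup.mem_zpowers_iff.1 (hbgen ⟨y, hy⟩)
    exact Subgroup.mem_zpowers_iff.2 ⟨k, congrArg Subtype.val hk⟩
  have hLB : ∀ g : GalF F, (g : Gal(AlgebraicClosure K/K)) ∈ L.fixingSubgroup →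
      g ∈ Δ ∧ Dih.B Δ s β g = 1 := fun g hg =>
    ⟨hLE g hg, by rw [Dih.B_mem (hLE g hg)]; exact hLβ ⟨g, hLE g hg⟩ hg⟩
  -- the fields
  have hFL : F ≤ L := hFE.trans hEL'
  obtain ⟨F₁, h₁, h₁L, hf₁, hF₁⟩ := exists_fld (Dih.Hb hd 1) L hL1 hFL fun g hg =>
    Or.inl (hLB g hg)
  obtain ⟨F₂, h₂, h₂L, hf₂, hF₂⟩ := exists_fld (Dih.Hb hd b) L hL1 hFL fun g hg =>
    Or.inl (hLB g hg)
  obtain ⟨F₃, h₃, h₃L, hf₃, hF₃⟩ := exists_fld (Dih.H3 Δ β) L hL1 hFL fun g hg =>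
    (Dih.mem_H3' hd g).2 (hLB g hg)
  have h₁₃ : F₁ ≤ F₃ := le_of_fix fun g hg => by
    obtain ⟨h3, h4⟩ := (hF₃ g).1 hg
    exact (hF₁ g).2 ⟨h3, Or.inl ((Dih.mem_H3' hd _).1 h4)⟩
  have h₂₃ : F₂ ≤ F₃ := le_of_fix fun g hg => by
    obtain ⟨h3, h4⟩ := (hF₃ g).1 hg
    exact (hF₂ g).2 ⟨h3, Or.inl ((Dih.mem_H3' hd _).1 h4)⟩
  have hunr : ∀ (F' : Sub K) (h' : F ≤ F') (c : ℂˣ), FinExt F' →
      (∀ g : Gal(AlgebraicClosure K/K), g ∈ F'.fixingSubgroup ↔
        ∃ h : g ∈ F.fixingSubgroup, (⟨g, h⟩ : GalF F) ∈ Dih.Hb hd c) → Unrf (resL h' ψ) := by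
    intro F' h' c hfin' hF' p hp w hw g hg
    refine hmain F' hfin' h' (fun k hk => ?_) w ⟨p, hp, (plc_iff p w).1 hw⟩
      ⟨g, IntermediateField.fixingSubgroup_antitone h' g.2⟩ g.2 hg
    obtain ⟨h3, h4⟩ := (hF' k).1 hk
    have h5 : (⟨k, h3⟩ : GalF F) ∈ Δ := (hΔ _).2 k.2
    rw [Dih.mem_Hb] at h4
    rcases h4 with ⟨-, h4⟩ | ⟨h4, -⟩
    · rw [Dih.B_mem h5, hβ] at h4
      exact div_eq_one.1 h4
    · exact absurd h5 h4
  refine ⟨F₁, F₂, F₃, h₁, h₂, h₁₃, h₂₃, hf₃, fun g hg => ?_, hunr F₁ h₁ 1 hf₁ hF₁,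
    hunr F₂ h₂ b hf₂ hF₂, fun g => ?_⟩
  · obtain ⟨h3, h4⟩ := (hF₃ g).1 hg
    have h5 := ((Dih.mem_H3' hd _).1 h4).1
    exact (hEiff g).1 ((hΔ g).1 h5)
  · have e1 : F₁.fixingSubgroup.subgroupOf F.fixingSubgroup = Dih.Hb hd 1 := by
      ext k
      rw [Subgroup.mem_subgroupOf, hF₁]
      exact ⟨fun ⟨_, h⟩ => h, fun h => ⟨k.2, h⟩⟩
    have e2 : F₂.fixingSubgroup.subgroupOf F.fixingSubgroup = Dih.Hb hd b := by
      ext k
      rw [Subgroup.mem_subgroupOf, hF₂]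
      exact ⟨fun ⟨_, h⟩ => h, fun h => ⟨k.2, h⟩⟩
    have e3 : F₃.fixingSubgroup.subgroupOf F.fixingSubgroup = Dih.H3 Δ β := by
      ext k
      rw [Subgroup.mem_subgroupOf, hF₃]
      exact ⟨fun ⟨_, h⟩ => h, fun h => ⟨k.2, h⟩⟩
    have h3 := Dih.identity hd b.2 hgen g
    have h4 : ((η g : ℂˣ) : ℂ) = if g ∈ Δ then (1 : ℂ) else -1 := by
      by_cases hg : g ∈ Δ
      · rw [if_pos hg, (hEiff g).1 ((hΔ g).1 hg)]
        rfl
      · rw [if_neg hg, unit_sq (h2 g) fun h5 => hg ((hΔ g).2 ((hEiff g).2 h5))]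
        rfl
    rw [ind_resL, ind_resL, ind_resL, e1, e2, e3, h4]
    linear_combination (-((ψ g : ℂˣ) : ℂ)) * h3

end

end Pool.Agent.Q20.RS.RL.TW
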