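import Pool.Agent.Q20.TW.Tw0

/-!
# Quadratic characters with given signs which are trivial at the bad places
-/

set_option autoImplicit false
set_option linter.unusedSectionVars false
set_option linter.deprecated false

namespace Pool.Agent.Q20.RS.RL.TW

open NumberField IsDedekindDomain
open Pool.Agent.Q246.BI (Smooth exists_fixed)
open Pool.Agent.Q20.EX Pool.Agent.Q92.AR
open Pool.Agent.Q273.SP (IsPl)
open Pool.Agent.Q20.LG (Above int_le_one exists_place)
open scoped Classical ComplexConjugate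

section
variable {K : Type} [Field K] [NumberField K]

/-- complex conjugations with the same real embedding of `F` are conjugate -/
theorem cc_conj {F : Sub K} {c c' : Gal(AlgebraicClosure K/K)} {ι ι' : AlgebraicClosure K →+* ℂ}
    (hc : ∀ x, ι (c x) = conj (ι x)) (hc' : ∀ x, ι' (c' x) = conj (ι' x))
    (h : ∀ x : F, ι x = ι' x) : ∃ g : GalF F, c' = (g : Gal(AlgebraicClosure K/K))⁻¹ * c * g := by
  let iK : Algebra (AlgebraicClosure K) ℂ := ι.toAlgebra
  have hT : IsScalarTower F (AlgebraicClosure K) ℂ := inferInstance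
  let ιF' : AlgebraicClosure K →ₐ[F] ℂ := ⟨ι', fun x => (h x).symm⟩
  have hn : Normal F (AlgebraicClosure K) := inferInstance
  let φ : AlgebraicClosure K →ₐ[F] AlgebraicClosure K := ιF'.restrictNormal (AlgebraicClosure K)
  have hφ : ∀ x, ι (φ x) = ι' x := fun x => ιF'.restrictNormal_commutes (AlgebraicClosure K) x
  have hb : Function.Bijective φ := AlgHom.normal_bijective F (AlgebraicClosure K)
    (AlgebraicClosure K) φ
  let g : GalF F := (IntermediateField.fixingSubgroupEquiv F).symm (AlgEquiv.ofBijective φ hb)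
  have hg : ∀ x, (g : Gal(AlgebraicClosure K/K)) x = φ x := fun x => rfl
  refine ⟨g, ?_⟩
  have h1 : (g : Gal(AlgebraicClosure K/K)) * c' = c * g := by
    apply AlgEquiv.ext
    intro x
    apply ι.injective
    change ι ((g : Gal(AlgebraicClosure K/K)) (c' x)) = ι (c ((g : Gal(AlgebraicClosure K/K)) x))
    rw [hg, hg, hφ, hc, hφ, hc']
  rw [mul_assoc, ← h1, inv_mul_cancel_left]

/-- valuations and places -/
theorem place_le {F : Sub K} [FiniteDimensional K F] [NumberField F] {v : HeightOneSpectrum (𝓞 F)}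
    {w : AlgebraicClosure K → ℝ} (h : Above F v w) {y : F} (hy : v.valuation F y ≤ 1) :
    w (y : AlgebraicClosure K) ≤ 1 := by
  obtain ⟨⟨p, hp, hw⟩, h1⟩ := h
  have hunit : ∀ d : 𝓞 F, d ∉ v.asIdeal → w ((d : F) : AlgebraicClosure K) = 1 := by
    intro d hd
    rw [h1] at hd
    exact le_antisymm (int_le_one hp hw d) (not_lt.1 hd)
  obtain ⟨n, d, hnd⟩ := v.exists_primeCompl_mul_eq_or_mul_eq y
  have hd1 : w (((d : 𝓞 F) : F) : AlgebraicClosure K) = 1 := hunit d d.2
  rcases hnd with hnd | hnd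
  · have h2 : w (y : AlgebraicClosure K) * w (((d : 𝓞 F) : F) : AlgebraicClosure K) =
        w ((n : F) : AlgebraicClosure K) := by
      rw [← hw.mul]
      exact congrArg (fun z : F => w (z : AlgebraicClosure K)) hnd
    rw [hd1, mul_one] at h2
    rw [h2]
    exact int_le_one hp hw n
  · have h3 : v.valuation F y * v.valuation F (algebraMap (𝓞 F) F n) =
        v.valuation F (algebraMap (𝓞 F) F d) := by
      rw [← map_mul]
      exact congrArg (v.valuation F) hnd
    have h4 : v.valuation F (algebraMap (𝓞 F) F d) = 1 := by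
      refine le_antisymm (v.valuation_le_one _) (not_lt.1 fun h5 => ?_)
      rw [HeightOneSpectrum.valuation_lt_one_iff_mem] at h5
      exact d.2 h5
    have h5 : v.valuation F (algebraMap (𝓞 F) F n) = 1 := by
      refine le_antisymm (v.valuation_le_one _) ?_
      rw [h4] at h3
      calc (1 : WithZero (Multiplicative ℤ)) = v.valuation F y * v.valuation F (algebraMap (𝓞 F) F n) := h3.symm
        _ ≤ 1 * v.valuation F (algebraMap (𝓞 F) F n) := mul_le_mul_left hy _
        _ = _ := one_mul _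
    have h6 : n ∉ v.asIdeal := by
      intro h7
      rw [← HeightOneSpectrum.valuation_lt_one_iff_mem (K := F)] at h7
      exact h7.ne h5
    have h7 : w (y : AlgebraicClosure K) * w ((n : F) : AlgebraicClosure K) =
        w (((d : 𝓞 F) : F) : AlgebraicClosure K) := by
      rw [← hw.mul]
      exact congrArg (fun z : F => w (z : AlgebraicClosure K)) hnd
    rw [hunit n h6, mul_one, hd1] at h7
    exact h7.le

/-- square roots of real numbers -/
theorem sqrt_conj {z : ℂ} {a : ℝ} (hz : z ^ 2 = (a : ℂ)) :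
    (0 < a → conj z = z) ∧ (a < 0 → conj z = -z) := by
  have h1 : conj z ^ 2 = z ^ 2 := by
    rw [← map_pow, hz, Complex.conj_ofReal]
  have h2 : conj z = z ∨ conj z = -z := sq_eq_sq_iff_eq_or_eq_neg.1 h1
  constructor
  · intro ha
    rcases h2 with h2 | h2
    · exact h2
    · exfalso
      have h3 : z * conj z = -(a : ℂ) := by rw [h2, ← hz]; ring
      rw [Complex.mul_conj] at h3
      have h4 : Complex.normSq z = -a := by exact_mod_cast h3
      have h5 := Complex.normSq_nonneg z
      linarith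
  · intro ha
    rcases h2 with h2 | h2
    · exfalso
      have h3 : z * conj z = (a : ℂ) := by rw [h2, ← hz]; ring
      rw [Complex.mul_conj] at h3
      have h4 : Complex.normSq z = a := by exact_mod_cast h3
      have h5 := Complex.normSq_nonneg z
      linarith
    · exact h2

/-- **Quadratic characters with given signs** at the real places, trivial at the places at which
`ψ` is ramified. -/
theorem exists_eta {F : Sub K} (hF : FinExt F) (ψ : GalF F →* ℂˣ) (hψ : Smt ψ)
    (P : Gal(AlgebraicClosure K/K) → Prop)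
    (hP : ∀ (g : GalF F) (c : Gal(AlgebraicClosure K/K)), P c →
      P ((g : Gal(AlgebraicClosure K/K))⁻¹ * c * g)) :
    ∃ η : GalF F →* ℂˣ, Smt η ∧ (∀ g, η g * η g = 1) ∧ SplitAt ψ η ∧
      ∀ c : GalF F, CCj (c : Gal(AlgebraicClosure K/K)) →
        (P c → η c = -1) ∧ (¬ P c → η c = 1) := by
  have hfF : FiniteDimensional K F := hF
  have iF : NumberField F := nf F
  obtain ⟨N₁, a1, a2, a3, a4, -, hψN₁, hram⟩ := ram_const ψ hψ ⊥
  have hB : (AR F N₁ ψ).Finite := ar_finite ψ hψN₁
  let Pn : ℕ := ∏ v ∈ hB.toFinset, Ideal.absNorm v.asIdeal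
  have hPn : Pn ≠ 0 := by
    refine Finset.prod_ne_zero_iff.2 fun v _ h => ?_
    exact v.ne_bot (Ideal.absNorm_eq_zero_iff.1 h)
  have hPmem : ∀ v ∈ AR F N₁ ψ, (Pn : 𝓞 F) ∈ v.asIdeal := by
    intro v hv
    have h1 : Ideal.absNorm v.asIdeal ∣ Pn :=
      Finset.dvd_prod_of_mem _ (hB.mem_toFinset.2 hv)
    exact nat_mem h1 (Ideal.absNorm_mem v.asIdeal)
  have hN : 8 * Pn ≠ 0 := mul_ne_zero (by norm_num) hPn
  let sg : (F →+* ℝ) → Prop := fun φ => ¬ ∃ c : Gal(AlgebraicClosure K/K),
    (∃ ι : AlgebraicClosure K →+* ℂ, (∀ x, ι (c x) = conj (ι x)) ∧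
      ∀ x : F, ι x = ((φ x : ℝ) : ℂ)) ∧ P c
  obtain ⟨d, hd, hds⟩ := Pool.Agent.Q84.AR.sgn F (8 * Pn) hN sg
  obtain ⟨r, hr⟩ := IsAlgClosed.exists_pow_nat_eq (((d : F) : AlgebraicClosure K)) (n := 2)
    (by norm_num)
  have hr0 : r ≠ 0 := by
    rintro rfl
    rw [zero_pow two_ne_zero] at hr
    have h1 : (d : F) = 0 := Subtype.ext hr.symm
    exact d.ne_zero h1
  have hgr : ∀ g : GalF F, (g : Gal(AlgebraicClosure K/K)) r = r ∨
      (g : Gal(AlgebraicClosure K/K)) r = -r := by
    intro g
    have h1 : ((g : Gal(AlgebraicClosure K/K)) r) ^ 2 = r ^ 2 := by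
      rw [← map_pow, hr]
      exact (IntermediateField.mem_fixingSubgroup_iff F _).1 g.2 _ (d : F).2
    exact sq_eq_sq_iff_eq_or_eq_neg.1 h1
  have hneg : -r ≠ r := fun h => hr0 (by
    have h1 : (2 : AlgebraicClosure K) * r = 0 := by linear_combination -h
    exact (mul_eq_zero.1 h1).resolve_left two_ne_zero)
  let η : GalF F →* ℂˣ := MonoidHom.mk' (fun g =>
    if (g : Gal(AlgebraicClosure K/K)) r = r then 1 else -1) (by
      intro a b
      have e1 : ((a * b : GalF F) : Gal(AlgebraicClosure K/K)) r =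
        (a : Gal(AlgebraicClosure K/K)) ((b : Gal(AlgebraicClosure K/K)) r) := rfl
      rcases hgr a with ha | ha <;> rcases hgr b with hb | hb
      · rw [e1, hb, ha, if_pos rfl, mul_one]
      · rw [e1, hb, map_neg, ha, if_pos rfl, if_neg hneg, one_mul]
      · rw [e1, hb, ha, if_neg hneg, if_pos rfl, mul_one]
      · rw [e1, hb, map_neg, ha, neg_neg, if_pos rfl, if_neg hneg, neg_mul_neg, one_mul])
  have hη : ∀ g : GalF F, η g = if (g : Gal(AlgebraicClosure K/K)) r = r then 1 else -1 :=
    fun g => rfl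
  have hη1 : ∀ g : GalF F, (g : Gal(AlgebraicClosure K/K)) r = r → η g = 1 := fun g h => by
    rw [hη, if_pos h]
  have hη2 : ∀ g : GalF F, (g : Gal(AlgebraicClosure K/K)) r = -r → η g = -1 := fun g h => by
    rw [hη, h, if_neg hneg]
  refine ⟨η, ?_, fun g => ?_, ?_, ?_⟩
  · refine ⟨IntermediateField.adjoin K {r}, IntermediateField.adjoin.finiteDimensional
      (Algebra.IsIntegral.isIntegral r), fun g hg => hη1 g ?_⟩
    exact (IntermediateField.mem_fixingSubgroup_iff _ _).1 hg r
      (IntermediateField.mem_adjoin_simple_self K r)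
  · rcases hgr g with h | h
    · rw [hη1 g h, one_mul]
    · rw [hη2 g h, neg_mul_neg, one_mul]
  · intro p hp w hw hR g hg
    have hw' := (plc_iff p w).1 hw
    obtain ⟨v, hv, -⟩ := Pool.Agent.Q20.LG.exists_above F hp hw'
    have hvB : v ∈ AR F N₁ ψ := ar_of_ramAt ψ hv hR
    rcases hgr g with h | h
    · exact hη1 g h
    exfalso
    -- `w(d - 1) < w(4)`
    have h1 := hd v (nat_mem (dvd_mul_left Pn 8) (hPmem v hvB))
    have hNF : ((8 * Pn : ℕ) : F) ≠ 0 := by exact_mod_cast hN
    have h2 : w ((((d : F) - 1) / ((8 * Pn : ℕ) : F) : F) : AlgebraicClosure K) ≤ 1 := by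
      refine place_le hv ?_
      rw [map_div₀]
      exact div_le_one_of_le₀ h1 zero_le
    have h3 : w (((d : F) : AlgebraicClosure K) - 1) ≤ w ((8 * Pn : ℕ) : AlgebraicClosure K) := by
      have h4 : ((((d : F) - 1) / ((8 * Pn : ℕ) : F) : F) : AlgebraicClosure K) *
          ((8 * Pn : ℕ) : AlgebraicClosure K) = ((d : F) : AlgebraicClosure K) - 1 := by
        have h5 : (((d : F) - 1) / ((8 * Pn : ℕ) : F)) * ((8 * Pn : ℕ) : F) = (d : F) - 1 :=
          div_mul_cancel₀ _ hNF
        have h6 := congrArg F.val h5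
        rw [map_mul, map_natCast, map_sub, map_one] at h6
        exact h6
      rw [← h4, hw'.mul]
      exact mul_le_of_le_one_left (hw'.nonneg _) h2
    have h4 : w ((Pn : ℕ) : AlgebraicClosure K) < 1 := (hv.2 (Pn : 𝓞 F)).1 (hPmem v hvB)
    have hw8 : w ((8 : ℕ) : AlgebraicClosure K) ≤ w ((4 : ℕ) : AlgebraicClosure K) := by
      have h5 : ((8 : ℕ) : AlgebraicClosure K) = ((2 : ℕ) : AlgebraicClosure K) *
        ((4 : ℕ) : AlgebraicClosure K) := by norm_num
      rw [h5, hw'.mul]
      exact mul_le_of_le_one_left (hw'.nonneg _) (hw'.nat_le hp 2)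
    have hw8pos : 0 < w ((8 : ℕ) : AlgebraicClosure K) := hw'.pos hp (by norm_num)
    have h5 : w ((8 * Pn : ℕ) : AlgebraicClosure K) < w ((4 : ℕ) : AlgebraicClosure K) := by
      rw [Nat.cast_mul, hw'.mul]
      refine lt_of_lt_of_le ?_ hw8
      exact mul_lt_of_lt_one_right hw8pos h4
    have h6 : w (((d : F) : AlgebraicClosure K) - 1) < w 2 * w 2 := by
      refine lt_of_le_of_lt h3 (h5.trans_eq ?_)
      rw [← hw'.mul]
      norm_num
    have h7 : w (r - 1) = w (r + 1) := by
      have h8 := hg (r - 1)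
      rw [map_sub, map_one, h] at h8
      rw [← h8, ← hw'.neg hp (r + 1)]
      congr 1
      ring
    have h8 : w (r - 1) * w (r - 1) < w 2 * w 2 := by
      have h9 : w (r - 1) * w (r + 1) = w (((d : F) : AlgebraicClosure K) - 1) := by
        rw [← hw'.mul, ← hr]
        congr 1
        ring
      rw [← h7] at h9
      rw [h9]
      exact h6
    have h9 : w (r - 1) < w 2 := by
      by_contra hcon
      push Not at hcon
      exact absurd h8 (not_lt.2 (mul_le_mul hcon hcon (hw'.nonneg _) (hw'.nonneg _)))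
    have h10 : w 2 ≤ max (w (r + 1)) (w (r - 1)) := by
      have h11 := hw'.sub hp (r + 1) (r - 1)
      have h12 : r + 1 - (r - 1) = 2 := by ring
      rwa [h12] at h11
    rw [← h7, max_self] at h10
    exact absurd h9 (not_lt.2 h10)
  · rintro c ⟨ι, hι⟩
    have hreal : ∀ x : F, conj (ι x) = ι x := by
      intro x
      rw [← hι]
      congr 1
      exact (IntermediateField.mem_fixingSubgroup_iff F _).1 c.2 _ x.2
    have hR : ComplexEmbedding.IsReal (ι.comp F.val.toRingHom) := by
      rw [ComplexEmbedding.isReal_iff]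
      ext x
      exact hreal x
    let φ : F →+* ℝ := hR.embedding
    have hφ : ∀ x : F, ι x = ((φ x : ℝ) : ℂ) := fun x =>
      (ComplexEmbedding.IsReal.coe_embedding_apply hR x).symm
    have hιr : (ι r) ^ 2 = ((φ d : ℝ) : ℂ) := by
      rw [← map_pow, hr, hφ]
    have hsq := sqrt_conj hιr
    have hφ0 : φ d ≠ 0 := (map_ne_zero φ).2 d.ne_zero
    constructor
    · intro hc
      have h1 : ¬ 0 < φ d := fun h => (hds φ).1 h ⟨c, ⟨ι, hι, hφ⟩, hc⟩
      have h2 : φ d < 0 := lt_of_le_of_ne (not_lt.1 h1) hφ0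
      refine hη2 c (ι.injective ?_)
      rw [hι, hsq.2 h2, map_neg]
    · intro hc
      have h1 : sg φ := by
        rintro ⟨c', ⟨ι', hι', hφ'⟩, hc'⟩
        obtain ⟨g, hg⟩ := cc_conj hι' hι fun x => (hφ' x).trans (hφ x).symm
        exact hc (by rw [hg]; exact hP g c' hc')
      have h2 : 0 < φ d := (hds φ).2 h1
      refine hη1 c (ι.injective ?_)
      rw [hι, hsq.1 h2]

end

end Pool.Agent.Q20.RS.RL.TW
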