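import Pool.Agent.Q20.TW.Tw1
import Pool.Agent.Q20.TW.Cent2

/-!
# Characters of totally real fields for which the complex conjugations commute
-/

set_option autoImplicit false
set_option linter.unusedSectionVars false
set_option linter.deprecated false

namespace Pool.Agent.Q20.RS.RL.TW

open NumberField IsDedekindDomain
open Pool.Agent.Q246.BI
open Pool.Agent.Q246.RP (IsCC)
open scoped Classical ComplexConjugate

section
variable {K : Type} [Field K] [NumberField K]

/-- `F` is totally real -/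
def TReal (F : Sub K) : Prop := ∀ (φ : F →+* ℂ) (x : F), conj (φ x) = φ x

/-- complex conjugations are in `Gal(K̄/F)` -/
theorem TReal.mem {F : Sub K} (h : TReal F) {c : Gal(AlgebraicClosure K/K)} (hc : CCj c) :
    c ∈ F.fixingSubgroup := by
  obtain ⟨ι, hι⟩ := hc
  rw [IntermediateField.mem_fixingSubgroup_iff]
  intro x hx
  apply ι.injective
  rw [hι]
  exact h (ι.comp F.val.toRingHom) ⟨x, hx⟩

theorem TReal.mono {F F' : Sub K} (hle : F ≤ F') (h : TReal F') : TReal F := by
  intro φ x
  let _ : Algebra F ℂ := φ.toAlgebra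
  have hint : Algebra.IsAlgebraic F (AlgebraicClosure K) :=
    Algebra.IsAlgebraic.tower_top (K := K) F
  let ι : AlgebraicClosure K →ₐ[F] ℂ := IsAlgClosed.lift
  have h1 := h ((ι : AlgebraicClosure K →+* ℂ).comp F'.val.toRingHom) ⟨x, hle x.2⟩
  have h2 : ι ((x : F) : AlgebraicClosure K) = φ x := ι.commutes x
  change conj (ι ((x : F) : AlgebraicClosure K)) = ι ((x : F) : AlgebraicClosure K) at h1
  rwa [h2] at h1

/-- a field between is totally real if all complex conjugations fix it -/
theorem TReal.of_mem {F F' : Sub K} (h : TReal F)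
    (h' : ∀ c : Gal(AlgebraicClosure K/K), CCj c → c ∈ F'.fixingSubgroup) : TReal F' := by
  intro φ x
  let _ : Algebra F' ℂ := φ.toAlgebra
  have hint : Algebra.IsAlgebraic F' (AlgebraicClosure K) :=
    Algebra.IsAlgebraic.tower_top (K := K) F'
  let ι : AlgebraicClosure K →ₐ[F'] ℂ := IsAlgClosed.lift
  obtain ⟨c, hc⟩ := Pool.Agent.Q246.RP.exists_conj (K := K) (ι : AlgebraicClosure K →+* ℂ) (fun k => by
    have h1 := h ((ι : AlgebraicClosure K →+* ℂ).comp F.val.toRingHom) (algebraMap K F k)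
    exact h1)
  have hb : Function.Bijective c := AlgHom.normal_bijective K (AlgebraicClosure K)
    (AlgebraicClosure K) c
  have h1 := h' (AlgEquiv.ofBijective c hb) ⟨(ι : AlgebraicClosure K →+* ℂ), fun x => hc x⟩
  rw [IntermediateField.mem_fixingSubgroup_iff] at h1
  have h2 := h1 x x.2
  have h3 : ι ((x : F') : AlgebraicClosure K) = φ x := ι.commutes x
  rw [← h3]
  change conj ((ι : AlgebraicClosure K →+* ℂ) (x : AlgebraicClosure K)) = _
  rw [← hc]
  exact congrArg ι h2

/-- the characters induced from linear characters over totally real fields -/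
def IndReal (F : Sub K) : Set (Fn F) :=
  {f | ∃ (F' : Sub K) (ψ : Lin F'), F ≤ F' ∧ FinExt F' ∧ TReal F' ∧ Smt (F := F') ψ ∧
    f = ind F F' ψ.fn}

/-- the images of the complex conjugations commute -/
def CommCC {F : Sub K} {X : Type} [Group X] (τ : GalF F →* X) : Prop :=
  ∀ c c' : GalF F, CCj (c : Gal(AlgebraicClosure K/K)) → CCj (c' : Gal(AlgebraicClosure K/K)) →
    τ c * τ c' = τ c' * τ c

theorem ccj_conj {c : Gal(AlgebraicClosure K/K)} (hc : CCj c) (g : Gal(AlgebraicClosure K/K)) :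
    CCj (g⁻¹ * c * g) := by
  obtain ⟨ι, hι⟩ := hc
  refine ⟨ι.comp (g : AlgebraicClosure K →ₐ[K] AlgebraicClosure K).toRingHom, fun x => ?_⟩
  change ι (g ((g⁻¹ * c * g) x)) = conj (ι (g x))
  have h1 : g ((g⁻¹ * c * g) x) = c (g x) := by
    change g (g.symm (c (g x))) = c (g x)
    exact AlgEquiv.apply_symm_apply g _
  rw [h1, hι]

/-- **Induction theorem.** -/
theorem span_real {F : Sub K} (hF : FinExt F) (hr : TReal F) {n : ℕ}
    (τ : GalF F →* GL (Fin n) ℂ) (hτ : Smt τ) (hc : CommCC τ) :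
    (fun g => (τ g : Matrix (Fin n) (Fin n) ℂ).trace : GalF F → ℂ) ∈
      AddSubgroup.closure (G := GalF F → ℂ) (IndReal F) := by
  have hfF : FiniteDimensional K F := hF
  obtain ⟨E, hE, hEτ⟩ := hτ
  have hfE : FiniteDimensional K E := hE
  let S : IntermediateField K (AlgebraicClosure K) := F ⊔ E
  have hS : FiniteDimensional K S := IntermediateField.finiteDimensional_sup _ _
  let L : IntermediateField K (AlgebraicClosure K) :=
    IntermediateField.normalClosure K S (AlgebraicClosure K)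
  have hLfd : FiniteDimensional K L := inferInstance
  have hLn : Normal K L := inferInstance
  have hSL : S ≤ L := IntermediateField.le_normalClosure S
  have hFL : F ≤ L := (le_sup_left : F ≤ S).trans hSL
  have hEL : E ≤ L := (le_sup_right : E ≤ S).trans hSL
  let τ' : (F.fixingSubgroup ⧸ NN F L) →* GL (Fin n) ℂ :=
    QuotientGroup.lift (NN F L) τ fun g hg => hEτ g
      (IntermediateField.fixingSubgroup_antitone hEL (Subgroup.mem_subgroupOf.1 hg))
  have hτ' : ∀ g, τ' (QuotientGroup.mk' (NN F L) g) = τ g := fun g => rfl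
  let A₀ : Subgroup (GL (Fin n) ℂ) := Subgroup.closure {x | ∃ c : GalF F,
    CCj (c : Gal(AlgebraicClosure K/K)) ∧ τ c = x}
  let R := τ'.range
  have hfin : Finite R := Finite.of_surjective τ'.rangeRestrict τ'.rangeRestrict_surjective
  have hA₀R : A₀ ≤ R := by
    rw [Subgroup.closure_le]
    rintro x ⟨c, -, rfl⟩
    exact ⟨QuotientGroup.mk' (NN F L) c, rfl⟩
  let A : Subgroup R := A₀.subgroupOf R
  have hcomm : ∀ a b : A, a * b = b * a := by
    have h1 : ∀ x ∈ A₀, ∀ y ∈ A₀, x * y = y * x := by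
      intro x hx y hy
      have h2 := Subgroup.closure_le_centralizer_centralizer {x | ∃ c : GalF F,
        CCj (c : Gal(AlgebraicClosure K/K)) ∧ τ c = x}
      have h3 : A₀ ≤ Subgroup.centralizer (A₀ : Set (GL (Fin n) ℂ)) := by
        have h4 : ({x | ∃ c : GalF F, CCj (c : Gal(AlgebraicClosure K/K)) ∧ τ c = x} :
            Set (GL (Fin n) ℂ)) ⊆ Subgroup.centralizer {x | ∃ c : GalF F,
              CCj (c : Gal(AlgebraicClosure K/K)) ∧ τ c = x} := by
          rintro _ ⟨c, hc1, rfl⟩
          rw [SetLike.mem_coe, Subgroup.mem_centralizer_iff]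
          rintro _ ⟨c', hc2, rfl⟩
          exact hc c' c hc2 hc1
        have h5 : A₀ ≤ Subgroup.centralizer {x | ∃ c : GalF F,
            CCj (c : Gal(AlgebraicClosure K/K)) ∧ τ c = x} := (Subgroup.closure_le _).2 h4
        rw [Subgroup.centralizer_closure]
        exact h5
      have h4 := h3 hx
      rw [Subgroup.mem_centralizer_iff] at h4
      exact (h4 y hy).symm
    intro a b
    apply Subtype.ext
    apply Subtype.ext
    exact h1 _ (Subgroup.mem_subgroupOf.1 a.2) _ (Subgroup.mem_subgroupOf.1 b.2)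
  have hnorm : ∀ g a : R, a ∈ A → g⁻¹ * a * g ∈ A := by
    intro g a ha
    obtain ⟨g, ⟨g', rfl⟩⟩ := g
    obtain ⟨g', rfl⟩ := QuotientGroup.mk'_surjective _ g'
    have h1 : ((a : R) : GL (Fin n) ℂ) ∈ A₀ := Subgroup.mem_subgroupOf.1 ha
    rw [Subgroup.mem_subgroupOf]
    change (τ g')⁻¹ * ((a : R) : GL (Fin n) ℂ) * τ g' ∈ A₀
    generalize ((a : R) : GL (Fin n) ℂ) = x at h1
    induction h1 using Subgroup.closure_induction with
    | mem x hx =>
      obtain ⟨c, hc1, rfl⟩ := hx
      refine Subgroup.subset_closure ⟨g'⁻¹ * c * g', ccj_conj hc1 _, ?_⟩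
      rw [map_mul, map_mul, map_inv]
    | one => rw [mul_one, inv_mul_cancel]; exact A₀.one_mem
    | mul x y _ _ hx hy =>
      have h2 : (τ g')⁻¹ * (x * y) * τ g' = ((τ g')⁻¹ * x * τ g') * ((τ g')⁻¹ * y * τ g') := by
        group
      rw [h2]
      exact A₀.mul_mem hx hy
    | inv x _ hx =>
      have h2 : (τ g')⁻¹ * x⁻¹ * τ g' = ((τ g')⁻¹ * x * τ g')⁻¹ := by group
      rw [h2]
      exact A₀.inv_mem hx
  have hch : IsCh (fun r : R => ((r : GL (Fin n) ℂ) : Matrix (Fin n) (Fin n) ℂ).trace) :=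
    ⟨n, (Units.coeHom _).comp R.subtype, fun g => rfl⟩
  have h1 := brauer_monN A hnorm hcomm hch
  let Z : Subgroup (F.fixingSubgroup ⧸ NN F L) := Subgroup.closure (SS F L)
  have h2 := MonZ.infl τ'.rangeRestrict τ'.rangeRestrict_surjective Z A (fun s hs => by
    induction hs using Subgroup.closure_induction with
    | mem x hx =>
      obtain ⟨c, hc1, rfl⟩ := hx
      rw [Subgroup.mem_subgroupOf]
      exact Subgroup.subset_closure ⟨c, hc1, rfl⟩
    | one => rw [map_one]; exact A.one_mem
    | mul x y _ _ hx hy => rw [map_mul]; exact A.mul_mem hx hy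
    | inv x _ hx => rw [map_inv]; exact A.inv_mem hx) h1
  have h3 := closure_infl (QuotientGroup.mk' (NN F L)) _ (IndReal F : Set (GalF F → ℂ)) (by
    rintro _ ⟨H, ψ, hH, rfl⟩
    obtain ⟨F', hFF', hF'L, hF'⟩ := exists_field F L hFL H
    obtain ⟨ψ', hψ's, -, hψ'i⟩ := exists_lin F L hFL H ψ F' hF'
    have hfd : FiniteDimensional K F' := FiniteDimensional.of_injective
      (IntermediateField.inclusion hF'L).toLinearMap (IntermediateField.inclusion_injective hF'L)
    refine ⟨F', ψ', hFF', hfd, ?_, hψ's, (funext hψ'i).symm⟩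
    refine hr.of_mem fun c hc1 => (hF' c).2 ⟨hr.mem hc1, hH ?_⟩
    exact Subgroup.subset_closure ⟨⟨c, hr.mem hc1⟩, hc1, rfl⟩) h2
  exact h3

end

end Pool.Agent.Q20.RS.RL.TW
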