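import Pool.Agent.Q20.TW.Tw2

/-!
# Additive inductive functions which vanish at unramified linear characters
-/

set_option autoImplicit false
set_option linter.unusedSectionVars false
set_option linter.deprecated false

namespace Pool.Agent.Q20.RS.RL.TW

open NumberField IsDedekindDomain
open scoped Classical

section
variable {K : Type} [Field K] [NumberField K]

/-- the dihedral twist theorem as a statement -/
def TwistS (K : Type) [Field K] [NumberField K] : Prop :=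
  ∀ (F : Sub K), FinExt F → ∀ (ψ η : GalF F →* ℂˣ), Smt ψ → Smt η →
    (∀ g, η g * η g = 1) → (∃ g, η g ≠ 1) → SplitAt ψ η →
    ∃ (F₁ F₂ F₃ : Sub K) (h₁ : F ≤ F₁) (h₂ : F ≤ F₂) (h₁₃ : F₁ ≤ F₃) (_ : F₂ ≤ F₃),
      FinExt F₃ ∧ (∀ g : GalF F, (g : Gal(AlgebraicClosure K/K)) ∈ F₃.fixingSubgroup → η g = 1) ∧
      Unrf (resL h₁ ψ) ∧ Unrf (resL h₂ ψ) ∧
      ∀ g : GalF F, ((ψ g : ℂˣ) : ℂ) + ind F F₃ (Lin.fn (F := F₃) (resL (h₁.trans h₁₃) ψ)) g =
        ((ψ g : ℂˣ) : ℂ) * ((η g : ℂˣ) : ℂ) + (ind F F₁ (Lin.fn (F := F₁) (resL h₁ ψ)) g +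
          ind F F₂ (Lin.fn (F := F₂) (resL h₂ ψ)) g)

theorem smt_res {F F' : Sub K} (h : F ≤ F') {ψ : GalF F →* ℂˣ} (hψ : Smt ψ) : Smt (resL h ψ) := by
  obtain ⟨E, hE, h1⟩ := hψ
  exact ⟨E, hE, fun g hg => h1 _ hg⟩

theorem smt_mul {F : Sub K} {ψ η : GalF F →* ℂˣ} (hψ : Smt ψ) (hη : Smt η) : Smt (ψ * η) := by
  obtain ⟨E, hE, h1⟩ := hψ
  obtain ⟨E', hE', h2⟩ := hη
  have hEf : FiniteDimensional K E := hE
  have hEf' : FiniteDimensional K E' := hE'
  refine ⟨E ⊔ E', IntermediateField.finiteDimensional_sup E E', fun g hg => ?_⟩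
  rw [MonoidHom.mul_apply, h1 g (IntermediateField.fixingSubgroup_antitone le_sup_left hg),
    h2 g (IntermediateField.fixingSubgroup_antitone le_sup_right hg), one_mul]

theorem finExt_of_le {F F' : Sub K} (h : F ≤ F') (hF' : FinExt F') : FinExt F := by
  have hfd' : FiniteDimensional K F' := hF'
  exact FiniteDimensional.of_injective (IntermediateField.inclusion h).toLinearMap
    (IntermediateField.inclusion h).injective

variable {B : Type} [AddCommGroup B]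

/-- **Quadratic twists do not change** additive inductive functions which vanish at unramified
linear characters -/
theorem twist_add (hT : TwistS K) {D : ∀ F : Sub K, Fn F → B} (hD : AddInd D)
    (hu : ∀ F : Sub K, FinExt F → ∀ ψ : Lin F, Smt (F := F) ψ → Unrf (F := F) ψ → D F ψ.fn = 0)
    {F : Sub K} (hF : FinExt F) (ψ η : GalF F →* ℂˣ) (hψ : Smt ψ) (hη : Smt η)
    (h2 : ∀ g, η g * η g = 1) (hsp : SplitAt ψ η) :
    D F (Lin.fn (F := F) (ψ * η)) = D F (Lin.fn (F := F) ψ) := by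
  by_cases hne : ∃ g, η g ≠ 1
  · obtain ⟨F₁, F₂, F₃, h₁, h₂, h₁₃, h₂₃, hf₃, -, hu₁, hu₂, hid⟩ :=
      hT F hF ψ η hψ hη h2 hne hsp
    have hf₁ := finExt_of_le h₁₃ hf₃
    have hf₂ := finExt_of_le h₂₃ hf₃
    have c₁ : Char (Lin.fn (F := F₁) (resL h₁ ψ)) := lin_char _ (smt_res h₁ hψ)
    have c₂ : Char (Lin.fn (F := F₂) (resL h₂ ψ)) := lin_char _ (smt_res h₂ hψ)
    have c₃ : Char (Lin.fn (F := F₃) (resL (h₁.trans h₁₃) ψ)) := lin_char _ (smt_res _ hψ)
    have cψ : Char (Lin.fn (F := F) ψ) := lin_char _ hψ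
    have cη : Char (Lin.fn (F := F) (ψ * η)) := lin_char _ (smt_mul hψ hη)
    have key : plus (Lin.fn (F := F) ψ) (ind F F₃ (Lin.fn (F := F₃) (resL (h₁.trans h₁₃) ψ))) =
        plus (Lin.fn (F := F) (ψ * η)) (plus (ind F F₁ (Lin.fn (F := F₁) (resL h₁ ψ)))
          (ind F F₂ (Lin.fn (F := F₂) (resL h₂ ψ)))) := by
      funext g
      have h3 := hid g
      change ((ψ g : ℂˣ) : ℂ) + _ = (((ψ g * η g : ℂˣ)) : ℂ) + _
      rw [Units.val_mul]
      exact h3
    have h3 := congrArg (D F) key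
    rw [hD.add F hF _ _ cψ (ind_char' hF hf₃ c₃), hD.add F hF _ _ cη
      (plus_char hF (ind_char' hF hf₁ c₁) (ind_char' hF hf₂ c₂)),
      hD.add F hF _ _ (ind_char' hF hf₁ c₁) (ind_char' hF hf₂ c₂),
      hD.ind F F₃ (h₁.trans h₁₃) hf₃ _ c₃, hD.ind F F₁ h₁ hf₁ _ c₁, hD.ind F F₂ h₂ hf₂ _ c₂,
      hu F₁ hf₁ _ (smt_res h₁ hψ) hu₁, hu F₂ hf₂ _ (smt_res h₂ hψ) hu₂,
      hu F₃ hf₃ _ (smt_res _ hψ) (hu₁.res h₁₃), add_zero, add_zero, add_zero] at h3
    exact h3.symm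
  · push Not at hne
    have h3 : ψ * η = ψ := MonoidHom.ext fun g => by rw [MonoidHom.mul_apply, hne, mul_one]
    rw [h3]

/-- the value of a linear character at a complex conjugation -/
theorem cc_val {F : Sub K} (ψ : GalF F →* ℂˣ) {c : GalF F}
    (hc : CCj (c : Gal(AlgebraicClosure K/K))) : ψ c = 1 ∨ ψ c = -1 := by
  have h1 : c * c = 1 := Subtype.ext (Pool.Agent.Q246.BI.cc_sq hc)
  have h2 : ψ c * ψ c = 1 := by rw [← map_mul, h1, map_one]
  by_cases h3 : ψ c = 1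
  · exact Or.inl h3
  · exact Or.inr (unit_sq h2 h3)

/-- every linear character has a twist with given parity -/
theorem exists_parity {F : Sub K} (hF : FinExt F) (ψ : GalF F →* ℂˣ) (hψ : Smt ψ) {s : ℂˣ}
    (hs : s = 1 ∨ s = -1) : ∃ η : GalF F →* ℂˣ, Smt η ∧ (∀ g, η g * η g = 1) ∧ SplitAt ψ η ∧
      ∀ c : GalF F, CCj (c : Gal(AlgebraicClosure K/K)) → (ψ * η) c = s := by
  let P : Gal(AlgebraicClosure K/K) → Prop := fun c => ∃ h : c ∈ F.fixingSubgroup, ψ ⟨c, h⟩ ≠ s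
  obtain ⟨η, h1, h2, h3, h4⟩ := exists_eta hF ψ hψ P (by
    rintro g c ⟨hc, hne⟩
    refine ⟨F.fixingSubgroup.mul_mem (F.fixingSubgroup.mul_mem (F.fixingSubgroup.inv_mem g.2) hc)
      g.2, fun h => hne ?_⟩
    have h5 : ψ (g⁻¹ * ⟨c, hc⟩ * g) = s := h
    rwa [map_mul, map_mul, map_inv, mul_comm, mul_inv_cancel_left] at h5)
  refine ⟨η, h1, h2, h3, fun c hc => ?_⟩
  rw [MonoidHom.mul_apply]
  by_cases hP : P (c : Gal(AlgebraicClosure K/K))
  · rw [(h4 c hc).1 hP]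
    obtain ⟨h5, h6⟩ := hP
    have h7 : ψ c ≠ s := h6
    rcases cc_val ψ hc with h8 | h8 <;> rcases hs with rfl | rfl
    · exact absurd h8 h7
    · rw [h8, one_mul]
    · rw [h8, neg_mul_neg, one_mul]
    · exact absurd h8 h7
  · rw [(h4 c hc).2 hP, mul_one]
    by_contra h5
    exact hP ⟨c.2, h5⟩

/-- additive inductive functions vanish on the span of induced characters at which they vanish -/
theorem zero_of_span {D : ∀ F : Sub K, Fn F → B} (hD : AddInd D) {F : Sub K} (hF : FinExt F)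
    (A : Set (GalF F → ℂ)) (hA : ∀ f ∈ A, Char (F := F) f ∧ D F f = 0) {χ : GalF F → ℂ}
    (hχ : Char (F := F) χ) (h : χ ∈ AddSubgroup.closure A) : D F χ = 0 := by
  have key : ∀ f ∈ AddSubgroup.closure A, ∃ a b : GalF F → ℂ, Char (F := F) a ∧ Char (F := F) b ∧
      f = a - b ∧ D F a = 0 ∧ D F b = 0 := by
    intro f hf
    have hz := zero_character F
    have hz0 := zero_of_add hD F hF
    induction hf using AddSubgroup.closure_induction with
    | mem f hf =>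
      obtain ⟨h1, h2⟩ := hA f hf
      exact ⟨f, fun _ => 0, h1, hz, by
        funext g
        exact (sub_zero _).symm, h2, hz0⟩
    | zero =>
      exact ⟨fun _ => 0, fun _ => 0, hz, hz, by
        funext g
        exact (sub_zero _).symm, hz0, hz0⟩
    | add x y _ _ hx hy =>
      obtain ⟨a, b, ha, hb, hab, h1, h2⟩ := hx
      obtain ⟨a', b', ha', hb', hab', h1', h2'⟩ := hy
      refine ⟨plus (F := F) a a', plus (F := F) b b', plus_char hF ha ha', plus_char hF hb hb', ?_,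
        ?_, ?_⟩
      · rw [hab, hab']
        funext g
        change a g - b g + (a' g - b' g) = (a g + a' g) - (b g + b' g)
        ring
      · rw [hD.add F hF _ _ ha ha', h1, h1', add_zero]
      · rw [hD.add F hF _ _ hb hb', h2, h2', add_zero]
    | neg x _ hx =>
      obtain ⟨a, b, ha, hb, hab, h1, h2⟩ := hx
      exact ⟨b, a, hb, ha, by rw [hab, neg_sub], h2, h1⟩
  obtain ⟨a, b, ha, hb, hab, h1, h2⟩ := key χ h
  have h3 : plus (F := F) χ b = a := by
    rw [hab]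
    funext g
    change a g - b g + b g = a g
    ring
  have h4 := hD.add F hF _ _ hχ hb
  rw [h3, h1, h2, add_zero] at h4
  exact h4.symm

/-- **Vanishing.** -/
theorem vanish_all (hT : TwistS K) {D : ∀ F : Sub K, Fn F → B} (hD : AddInd D)
    (hu : ∀ F : Sub K, FinExt F → ∀ ψ : Lin F, Smt (F := F) ψ → Unrf (F := F) ψ → D F ψ.fn = 0)
    {s : ℂˣ} (hs : s = 1 ∨ s = -1)
    (hp : ∀ F : Sub K, FinExt F → TReal F → ∀ ψ : GalF F →* ℂˣ, Smt ψ →
      (∀ c : GalF F, CCj (c : Gal(AlgebraicClosure K/K)) → ψ c = s) → D F (Lin.fn (F := F) ψ) = 0)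
    {F : Sub K} (hF : FinExt F) (hr : TReal F) {n : ℕ} (τ : GalF F →* GL (Fin n) ℂ) (hτ : Smt τ)
    (hc : CommCC τ) : D F (fun g => (τ g : Matrix (Fin n) (Fin n) ℂ).trace) = 0 := by
  have hlin : ∀ F : Sub K, FinExt F → TReal F → ∀ ψ : GalF F →* ℂˣ, Smt ψ →
      D F (Lin.fn (F := F) ψ) = 0 := by
    intro F hF hr ψ hψ
    obtain ⟨η, h1, h2, h3, h4⟩ := exists_parity hF ψ hψ hs
    rw [← twist_add hT hD hu hF ψ η hψ h1 h2 h3]
    exact hp F hF hr _ (smt_mul hψ h1) h4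
  refine zero_of_span hD hF (IndReal F) ?_ ⟨n, τ, hτ, fun g => rfl⟩ (span_real hF hr τ hτ hc)
  rintro f ⟨F', ψ, hle, hF', hr', hψ, rfl⟩
  have c := lin_char (F := F') ψ hψ
  refine ⟨ind_char' hF hF' c, ?_⟩
  rw [hD.ind F F' hle hF' _ c]
  exact hlin F' hF' hr' ψ hψ

end

end Pool.Agent.Q20.RS.RL.TW
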